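import Pool.Agent.LibNexp55.Reach

/-!
Adaptive queries to nondeterministic exponential time.
-/

namespace Pool.Agent.LibNexp55

open Function Pool.Agent.LibNexp

variable {O : List Bool → Bool}

open Classical in
/-- The answers to the first queries of the protocol given by `C` on the input `x`: the query
made after the answers `α` is `⟨x, α⟩`. -/
noncomputable def ans (C : Lang) (x : List Bool) : ℕ → List Bool
  | 0 => []
  | i + 1 => ans C x i ++ [decide (pair x (ans C x i) ∈ C)]

/-- Polynomially many adaptive queries to a language of the class. -/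
def Adapt (O : List Bool → Bool) : Set Lang :=
  {L | ∃ C ∈ NEXPLang O, ∃ c : ℕ, ∀ x, x ∈ L ↔ pair x (ans C x (x.length ^ c + c)) ∈ C}

@[simp] theorem length_ans (C : Lang) (x : List Bool) (i : ℕ) : (ans C x i).length = i := by
  induction i with
  | zero => rfl
  | succ i ih => rw [ans, List.length_append, ih]; rfl

theorem ans_prefix (C : Lang) (x : List Bool) {i j : ℕ} (h : i ≤ j) : ans C x i <+: ans C x j := by
  induction j, h using Nat.le_induction with
  | base => exact List.prefix_rfl
  | succ j _ ih => exact ih.trans (List.prefix_append _ _)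

/-! ### Levels from decreasing conditions -/

theorem mem_BH_of_dec {m : ℕ} {L : Lang} {P : ℕ → List Bool → Prop}
    (h0 : ∀ x, P 0 x) (hdec : ∀ j x, P (j + 1) x → P j x) (htop : ∀ x, ¬ P (m + 1) x)
    (hP : ∀ j, {x | P j x} ∈ NEXPLang O)
    (hL : ∀ j x, P j x → ¬ P (j + 1) x → (x ∈ L ↔ Odd j)) : L ∈ BH O m := by
  classical
  have hanti : ∀ {i j : ℕ} {x : List Bool}, i ≤ j → P j x → P i x := by
    intro i j x hij
    induction j, hij using Nat.le_induction with
    | base => exact id
    | succ j _ ih => exact fun h => ih (hdec _ _ h)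
  refine mem_BH_iff.2 ⟨fun x => Nat.findGreatest (fun j => P j x) m,
    fun x => Nat.findGreatest_le m, fun i => ?_, fun x => ?_⟩
  · rcases Nat.eq_zero_or_pos i with rfl | hi
    · simpa using univ_mem
    rcases Nat.lt_or_ge m i with h | h
    · convert empty_mem (O := O) using 1
      ext x
      have := Nat.findGreatest_le (P := fun j => P j x) m
      constructor
      · intro h1
        change i ≤ Nat.findGreatest (fun j => P j x) m at h1
        omega
      · intro h1
        exact absurd h1 (by simp)
    · convert hP i using 1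
      ext x
      constructor
      · intro h1
        exact hanti h1 (Nat.findGreatest_spec (P := fun j => P j x) (Nat.zero_le m) (h0 x))
      · intro h1
        exact Nat.le_findGreatest (P := fun j => P j x) h h1
  · refine hL _ _ (Nat.findGreatest_spec (P := fun j => P j x) (Nat.zero_le m) (h0 x)) fun h1 => ?_
    have h2 := Nat.findGreatest_le (P := fun j => P j x) m
    dsimp only at h1
    rcases Nat.lt_or_ge (Nat.findGreatest (fun j => P j x) m) m with h | h
    · have := Nat.le_findGreatest (P := fun j => P j x) (show _ + 1 ≤ m from h) h1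
      omega
    · have : Nat.findGreatest (fun j => P j x) m = m := le_antisymm h2 h
      rw [this] at h1
      exact htop x h1

/-! ### The difference hierarchy is contained in the class -/

theorem nx_prefix {ι : Type} [Finite ι] (w : List Bool) (i : ι) :
    NX O fun e : ι → List Bool => w <+: e i := by
  have h1 : NX O fun e : Option (Option ι) → List Bool => e none = [] ∧
      e (some (some i)) = e none ++ w ++ e (some none) :=
    (nx_const _ _).and (nx_mid _ _ _ _)
  have h2 := NX.exLe h1 (some i) (by
    rintro e z ⟨h, -⟩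
    change z = [] at h
    rw [h]
    simp)
  have h3 := NX.exLe h2 i (by
    rintro e z ⟨v, h, h'⟩
    change e i = v ++ w ++ z at h'
    rw [h']
    simp
    omega)
  refine h3.congr fun e => ?_
  constructor
  · rintro ⟨z, v, h, h'⟩
    change v = [] at h
    change e i = v ++ w ++ z at h'
    subst h
    exact ⟨z, by rw [h']; simp⟩
  · rintro ⟨z, hz⟩
    refine ⟨z, [], rfl, ?_⟩
    show e i = [] ++ w ++ z
    rw [← hz]
    simp

open Classical in
theorem count_ans {C : Lang} {x : List Bool} {f : ℕ} {m : ℕ}
    (h : ∀ i < m, ∀ α : List Bool, α.length = i → (pair x α ∈ C ↔ i + 1 ≤ f)) :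
    ∀ i ≤ m, (ans C x i).count true = min i f := by
  intro i
  induction i with
  | zero => intro _; simp [ans]
  | succ i ih =>
    intro hi
    rw [ans, List.count_append, ih (by omega)]
    by_cases h1 : pair x (ans C x i) ∈ C
    · rw [decide_eq_true h1]
      have := (h i (by omega) _ (length_ans C x i)).1 h1
      simp
      omega
    · rw [decide_eq_false h1]
      have : ¬ (i + 1 ≤ f) := fun h2 => h1 ((h i (by omega) _ (length_ans C x i)).2 h2)
      simp
      omega

theorem parity_mem_adapt {m : ℕ} {f : List Bool → ℕ} (hf : ∀ x, f x ≤ m) (hfO : Below O f)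
    (Q : ℕ → Prop) : {x | Q (f x)} ∈ Adapt O := by
  classical
  have hR : NEXP O fun e : Fin 2 → List Bool =>
      (∃ i ∈ Finset.range m, (e 1).length = 0 * (e 1).length + i ∧ e 0 ∈ {x | i + 1 ≤ f x}) ∨
      (∃ w ∈ (strs m).filter (fun w => Q (w.count true)), w <+: e 1) :=
    nx_fin.1 ((NX.finset_exists _ fun i _ => (nx_lin _ _ _ _).and (nx_mem (hfO _) _)).or
      (NX.finset_exists _ fun w _ => nx_prefix _ _))
  obtain ⟨D, hD, hDC⟩ := rel_of_nexp (C := fun x α => (∃ i ∈ Finset.range m, α.length =
    0 * α.length + i ∧ x ∈ {x | i + 1 ≤ f x}) ∨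
      (∃ w ∈ (strs m).filter (fun w => Q (w.count true)), w <+: α)) hR
  refine ⟨D, hD, m, fun x => ?_⟩
  have h1 : ∀ i < m, ∀ α : List Bool, α.length = i → (pair x α ∈ D ↔ i + 1 ≤ f x) := by
    intro i hi α hα
    rw [hDC]
    constructor
    · rintro (⟨j, hj, h2, h3⟩ | ⟨w, hw, h2⟩)
      · have : i = j := by omega
        subst this
        exact h3
      · rw [Finset.mem_filter, mem_strs] at hw
        have := h2.length_le
        omega
    · intro h2
      exact Or.inl ⟨i, Finset.mem_range.2 hi, by omega, h2⟩
  have h2 := count_ans h1 m le_rfl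
  rw [min_eq_right (hf x)] at h2
  have hm : m ≤ x.length ^ m + m := Nat.le_add_left _ _
  rw [hDC]
  constructor
  · intro hx
    refine Or.inr ⟨ans D x m, ?_, ans_prefix D x hm⟩
    rw [Finset.mem_filter, mem_strs, length_ans, h2]
    exact ⟨rfl, hx⟩
  · rintro (⟨j, hj, h3, -⟩ | ⟨w, hw, h3⟩)
    · rw [length_ans] at h3
      have := Finset.mem_range.1 hj
      omega
    · rw [Finset.mem_filter, mem_strs] at hw
      have h4 : w = ans D x m := by
        rcases List.prefix_or_prefix_of_prefix h3 (ans_prefix D x hm) with h5 | h5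
        · exact h5.eq_of_length (by rw [hw.1, length_ans])
        · exact (h5.eq_of_length (by rw [hw.1, length_ans])).symm
      rw [h4, h2] at hw
      exact hw.2

theorem BH_subset_adapt {m : ℕ} : BH O m ⊆ Adapt O := by
  intro L hL
  obtain ⟨f, h1, h2, h3⟩ := mem_BH_iff.1 hL
  have : L = {x | Odd (f x)} := by ext x; exact h3 x
  rw [this]
  exact parity_mem_adapt h1 h2 Odd

theorem compl_mem_adapt {m : ℕ} {L : Lang} (hL : L ∈ BH O m) : Lᶜ ∈ Adapt O := by
  obtain ⟨f, h1, h2, h3⟩ := mem_BH_iff.1 hL
  have : Lᶜ = {x | ¬ Odd (f x)} := by ext x; exact not_congr (h3 x)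
  rw [this]
  exact parity_mem_adapt h1 h2 fun n => ¬ Odd n

end Pool.Agent.LibNexp55
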