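import Pool.Agent.LibNexp55.Ctx

/-!
The difference hierarchy over nondeterministic exponential time.
-/

namespace Pool.Agent.LibNexp55

open Function Pool.Agent.LibNexp

variable {O : List Bool → Bool}

/-- Level `m` of the difference (Boolean) hierarchy over nondeterministic exponential time
with oracle `O`: level `0` consists of the empty language, level `m + 1` of all differences
`B \ C` with `B` in nondeterministic exponential time and `C` in level `m`. -/
def BH (O : List Bool → Bool) : ℕ → Set Lang
  | 0 => {∅}
  | m + 1 => {L | ∃ B ∈ NEXPLang O, ∃ C ∈ BH O m, L = B \ C}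

/-- Functions approximable from below: all sets `{x : i ≤ f x}` are in nondeterministic
exponential time. -/
def Below (O : List Bool → Bool) (f : List Bool → ℕ) : Prop :=
  ∀ i, {x | i ≤ f x} ∈ NEXPLang O

theorem univ_mem : (Set.univ : Lang) ∈ NEXPLang O := nx_fin.1 nx_true

theorem empty_mem : (∅ : Lang) ∈ NEXPLang O := nx_fin.1 nx_false

theorem mem_BH_iff : ∀ {m : ℕ} {L : Lang}, L ∈ BH O m ↔
    ∃ f : List Bool → ℕ, (∀ x, f x ≤ m) ∧ Below O f ∧ ∀ x, x ∈ L ↔ Odd (f x) := by
  intro m
  induction m with
  | zero =>
    intro L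
    constructor
    · rintro rfl
      refine ⟨fun _ => 0, fun _ => le_rfl, fun i => ?_, fun x => by simp⟩
      rcases i with _ | i
      · simpa using univ_mem
      · simpa using empty_mem
    · rintro ⟨f, h1, -, h3⟩
      show L = ∅
      ext x
      rw [h3, Nat.le_zero.1 (h1 x)]
      simp
  | succ m ih =>
    intro L
    constructor
    · rintro ⟨B, hB, C, hC, rfl⟩
      classical
      obtain ⟨g, g1, g2, g3⟩ := ih.1 hC
      refine ⟨fun x => if x ∈ B then g x + 1 else 0, fun x => ?_, fun i => ?_, fun x => ?_⟩
      · dsimp only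
        split_ifs
        · have := g1 x; omega
        · omega
      · rcases i with _ | i
        · simpa using univ_mem
        · have h := NEXP.and hB (g2 i)
          refine h.congr fun e => ?_
          show e 0 ∈ B ∧ i ≤ g (e 0) ↔ i + 1 ≤ if e 0 ∈ B then g (e 0) + 1 else 0
          split_ifs with h
          · simp [h]
          · simp [h]
      · show x ∈ B ∧ x ∉ C ↔ _
        rw [g3]
        dsimp only
        split_ifs with h
        · simp [h, Nat.odd_add_one]
        · simp [h]
    · rintro ⟨f, h1, h2, h3⟩
      refine ⟨{x | 1 ≤ f x}, h2 1, {x | Odd (f x - 1)}, ih.2 ⟨fun x => f x - 1, fun x => ?_,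
        fun i => ?_, fun x => Iff.rfl⟩, ?_⟩
      · have := h1 x
        dsimp only
        omega
      · rcases i with _ | i
        · simpa using univ_mem
        · have e : {x | i + 1 ≤ f x - 1} = {x | i + 2 ≤ f x} := by
            ext x
            simp only [Set.mem_setOf_eq]
            omega
          rw [e]
          exact h2 _
      · ext x
        simp only [h3, Set.mem_diff, Set.mem_setOf_eq]
        rcases Nat.eq_zero_or_pos (f x) with h | h
        · simp [h]
        · obtain ⟨n, hn⟩ := Nat.exists_eq_add_of_le' h
          rw [hn]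
          simp [Nat.odd_add_one]

theorem BH_one : BH O 1 = NEXPLang O := by
  ext L
  constructor
  · rintro ⟨B, hB, C, rfl, rfl⟩
    simpa using hB
  · intro h
    exact ⟨L, h, ∅, rfl, by simp⟩

theorem BH_mono {m m' : ℕ} (h : m ≤ m') : BH O m ⊆ BH O m' := by
  intro L hL
  obtain ⟨f, h1, h2, h3⟩ := mem_BH_iff.1 hL
  exact mem_BH_iff.2 ⟨f, fun x => le_trans (h1 x) h, h2, h3⟩

end Pool.Agent.LibNexp55
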