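import Pool.Agent.LibNexp55.Adapt

/-!
Few advice values for the complements put the adaptive computations in the difference
hierarchy.
-/

namespace Pool.Agent.LibNexp55

open Function Pool.Agent.LibNexp

variable {O : List Bool → Bool}

/-- There is a sequence of `j` distinct members of `A` with alternating claims, starting with
a positive one, all but the last being bad. -/
def Alt {α : Type} (A : Finset α) (claim : α → Bool → Prop) (bad : α → Prop) (j : ℕ) : Prop :=
  ∃ l : Fin j → A, Function.Injective l ∧
    (∀ i : Fin j, claim (l i) (decide ((i : ℕ) % 2 = 0))) ∧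
    ∀ i : Fin j, (i : ℕ) + 1 < j → bad (l i)

theorem alt_zero {α : Type} (A : Finset α) (claim : α → Bool → Prop) (bad : α → Prop) :
    Alt A claim bad 0 :=
  ⟨fun i => i.elim0, fun i => i.elim0, fun i => i.elim0, fun i => i.elim0⟩

theorem alt_anti {α : Type} {A : Finset α} {claim : α → Bool → Prop} {bad : α → Prop} {j : ℕ}
    (h : Alt A claim bad (j + 1)) : Alt A claim bad j := by
  obtain ⟨l, h1, h2, h3⟩ := h
  exact ⟨fun i => l i.castSucc, fun i i' hi => Fin.castSucc_injective _ (h1 hi),
    fun i => by simpa using h2 i.castSucc, fun i hi => h3 i.castSucc (by simp)⟩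

theorem alt_top {α : Type} {A : Finset α} {claim : α → Bool → Prop} {bad : α → Prop} {j : ℕ}
    (hj : A.card < j) : ¬ Alt A claim bad j := by
  rintro ⟨l, h1, -⟩
  have := Fintype.card_le_of_injective l h1
  simp at this
  omega

theorem alt_value {α : Type} {A : Finset α} {claim : α → Bool → Prop} {bad : α → Prop} {b : Bool}
    (h1 : ∀ v ∈ A, ¬ bad v → ∀ c, claim v c → c = b)
    (h2 : ∃ v ∈ A, ¬ bad v ∧ claim v b) {j : ℕ} (hj : Alt A claim bad j)
    (hj' : ¬ Alt A claim bad (j + 1)) : b = true ↔ Odd j := by
  obtain ⟨l, hl1, hl2, hl3⟩ := hj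
  obtain ⟨v, hv, hv1, hv2⟩ := h2
  by_contra hcon
  have hb : b = decide (j % 2 = 0) := by
    rw [Nat.odd_iff] at hcon
    cases b
    · by_cases h3 : j % 2 = 1
      · simp [h3]
      · exact absurd ⟨fun h => absurd h (by simp), fun h => absurd h h3⟩ hcon
    · by_cases h3 : j % 2 = 1
      · exact absurd ⟨fun _ => h3, fun _ => rfl⟩ hcon
      · simp
        omega
  -- all members of the sequence are bad
  have hbad : ∀ i : Fin j, bad (l i) := by
    intro i
    by_cases hi : (i : ℕ) + 1 < j
    · exact hl3 i hi
    · by_contra hgood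
      have h4 := h1 _ (l i).2 hgood _ (hl2 i)
      rw [hb] at h4
      have h5 : j % 2 = ((i : ℕ) + 1) % 2 := by
        have := i.2
        have h7 : j = (i : ℕ) + 1 := by omega
        exact congrArg (· % 2) h7
      rcases Nat.mod_two_eq_zero_or_one (i : ℕ) with h6 | h6
      · have h7 : j % 2 = 1 := by omega
        simp [h6, h7] at h4
      · have h7 : j % 2 = 0 := by omega
        simp [h6, h7] at h4
  refine hj' ⟨Fin.snoc (α := fun _ => A) l ⟨v, hv⟩, ?_, ?_, ?_⟩
  · intro i i'
    refine Fin.lastCases ?_ (fun i => ?_) i <;> refine Fin.lastCases ?_ (fun i' => ?_) i'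
    · intro _; rfl
    · intro h
      simp only [Fin.snoc_last, Fin.snoc_castSucc] at h
      have h' : v = l i' := congrArg Subtype.val h
      exact absurd (by rw [h']; exact hbad i') hv1
    · intro h
      simp only [Fin.snoc_last, Fin.snoc_castSucc] at h
      have h' : v = l i := (congrArg Subtype.val h).symm
      exact absurd (by rw [h']; exact hbad i) hv1
    · intro h
      simp only [Fin.snoc_castSucc] at h
      rw [hl1 h]
  · intro i
    refine Fin.lastCases ?_ (fun i => ?_) i
    · simp only [Fin.snoc_last, Fin.val_last]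
      rw [← hb]
      exact hv2
    · simp only [Fin.snoc_castSucc, Fin.val_castSucc]
      exact hl2 i
  · intro i
    refine Fin.lastCases ?_ (fun i => ?_) i
    · simp
    · simp only [Fin.snoc_castSucc]
      exact fun _ => hbad i

/-! ### Certified runs -/

/-- The number of rounds. -/
def rounds (c n : ℕ) : ℕ := n ^ c + c

/-- A certificate for `⟨x, α⟩` not in the queried language, with the advice `s`. -/
def NegC (D : Lang) (c : ℕ) (x s α : List Bool) : Prop :=
  ∃ z, (∃ j, z = true :: List.replicate j false) ∧ ∃ y, y = α ++ z ∧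
    y.length = 1 * x.length ^ c + (c + 1) ∧ ∃ u, u = pair x y ∧ pair u s ∈ D

/-- One step of a computation with certified answers. -/
def Step (C D : Lang) (c : ℕ) (x s α β : List Bool) : Prop :=
  (∃ w : List Bool, w.length = 1 * x.length ^ c + c ∧ β.length ≤ w.length) ∧
    ((β = α ++ [true] ∧ pair x α ∈ C) ∨ (β = α ++ [false] ∧ NegC D c x s α))

/-- The claim that the computation on `x` has the outcome `b`, with the advice `s`. -/
def Claim (C D : Lang) (c : ℕ) (x s : List Bool) (b : Bool) : Prop :=
  ∃ α : List Bool, α.length = 1 * x.length ^ c + c ∧ (∃ o, o = [] ∧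
    Relation.ReflTransGen (Step C D c x s) o α) ∧
    ((b = true ∧ pair x α ∈ C) ∨ (b = false ∧ NegC D c x s α))

/-- The padded version of the queried language. -/
def PadLang (C : Lang) : Lang :=
  {y | ∃ x b, y = pair x b ∧ ∃ α z, b = α ++ z ∧ (∃ j, z = true :: List.replicate j false) ∧
    pair x α ∈ C}

/-- The advice `s` is unsound at the length of the padded queries. -/
def Bad (C D : Lang) (c : ℕ) (x s : List Bool) : Prop :=
  ∃ b : List Bool, b.length = 1 * x.length ^ c + (c + 1) ∧ ∃ w, w = pair x b ∧
    ∃ y : List Bool, y.length = w.length ∧ y ∈ PadLang C ∧ pair y s ∈ D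

theorem padLang_mem {C : Lang} (hC : C ∈ NEXPLang O) : PadLang C ∈ NEXPLang O := by
  -- variables: y, x, b, α, z
  have h1 : NX O fun e : Option (Option (Option (Option (Fin 1)))) → List Bool =>
      e (some (some none)) = e (some none) ++ e none ∧
      (∃ j, e none = true :: List.replicate j false) ∧
      pair (e (some (some (some none)))) (e (some none)) ∈ C :=
    (nx_cat _ _ _).and ((nx_pad _).and (nx_pair_mem hC _ _))
  have h2 := NX.exLe h1 (some none) (by
    rintro e z ⟨h, -⟩
    change e (some none) = e none ++ z at h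
    rw [h]; simp)
  have h3 := NX.exLe h2 none (by
    rintro e z ⟨v, h, -⟩
    change e none = z ++ v at h
    rw [h]; simp)
  have h4 : NX O fun e : Option (Option (Fin 1)) → List Bool =>
      e (some (some 0)) = pair (e (some none)) (e none) := nx_pair _ _ _
  have h5 := NX.exLe (h4.and h3) (some 0) (by
    rintro e z ⟨h, -⟩
    change e (some 0) = pair (e none) z at h
    rw [h, length_pair]; omega)
  have h6 := NX.exLe h5 0 (by
    rintro e z ⟨v, h, -⟩
    change e 0 = pair z v at h
    rw [h, length_pair]; omega)
  exact nx_fin.1 (h6.congr fun e => Iff.rfl)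

theorem nx_negC {ι : Type} [Finite ι] {D : Lang} (hD : D ∈ NEXPLang O) (c : ℕ) (x s α : ι) :
    NX O fun e : ι → List Bool => NegC D c (e x) (e s) (e α) := by
  have := Fintype.ofFinite ι
  have h1 : NX O fun e : Option (Option (Option ι)) → List Bool =>
      e none = pair (e (some (some (some x)))) (e (some none)) ∧
      pair (e none) (e (some (some (some s)))) ∈ D :=
    (nx_pair _ _ _).and (nx_pair_mem hD _ _)
  have h2 := NX.exists h1 (g := fun n => 3 * n + 2)
    (((PolyB.const 3).mul PolyB.id).add (PolyB.const 2)) (by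
      rintro e z ⟨h, -⟩
      change z = pair (e (some (some x))) (e none) at h
      have e1 := len_le_tot e (some (some x))
      have e2 := len_le_tot e none
      rw [h, length_pair]
      show _ ≤ 3 * tot e + 2
      omega)
  have h3 : NX O fun e : Option (Option ι) → List Bool => e none = e (some (some α)) ++ e (some none) ∧
      (e none).length = 1 * (e (some (some x))).length ^ c + (c + 1) :=
    (nx_cat _ _ _).and (nx_powlin _ _ _ _ _ le_rfl)
  have h4 := NX.exists (h3.and h2) (g := fun n => 1 * n ^ c + (c + 1))
    (((PolyB.const 1).mul (PolyB.id.pow c)).add (PolyB.const _)) (by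
      rintro e z ⟨⟨-, h⟩, -⟩
      change z.length = 1 * (e (some x)).length ^ c + (c + 1) at h
      have e1 := Nat.pow_le_pow_left (len_le_tot e (some x)) c
      rw [h]
      show _ ≤ 1 * tot e ^ c + (c + 1)
      omega)
  have h5 : NX O fun e : Option ι → List Bool => ∃ j, e none = true :: List.replicate j false :=
    nx_pad _
  have h6 := NX.exists (h5.and h4) (g := fun n => 1 * n ^ c + (c + 1))
    (((PolyB.const 1).mul (PolyB.id.pow c)).add (PolyB.const _)) (by
      rintro e z ⟨-, y, ⟨h, h'⟩, -⟩
      change y = e α ++ z at h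
      change y.length = 1 * (e x).length ^ c + (c + 1) at h'
      have e1 := Nat.pow_le_pow_left (len_le_tot e x) c
      rw [h, List.length_append] at h'
      show _ ≤ 1 * tot e ^ c + (c + 1)
      omega)
  refine h6.congr fun e => ?_
  constructor
  · rintro ⟨z, hz, y, ⟨h7, h8⟩, u, h9, h10⟩
    exact ⟨z, hz, y, h7, h8, u, h9, h10⟩
  · rintro ⟨z, hz, y, h7, h8, u, h9, h10⟩
    exact ⟨z, hz, y, ⟨h7, h8⟩, u, h9, h10⟩

theorem nx_step {ι : Type} [Finite ι] {C D : Lang} (hC : C ∈ NEXPLang O) (hD : D ∈ NEXPLang O)
    (c : ℕ) (x s α β : ι) :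
    NX O fun e : ι → List Bool => Step C D c (e x) (e s) (e α) (e β) := by
  have := Fintype.ofFinite ι
  have h1 : NX O fun e : Option ι → List Bool =>
      (e none).length = 1 * (e (some x)).length ^ c + c ∧ (e (some β)).length ≤ (e none).length :=
    (nx_powlin _ _ _ _ _ le_rfl).and (nx_le _ _)
  have h2 := NX.exists h1 (g := fun n => 1 * n ^ c + c)
    (((PolyB.const 1).mul (PolyB.id.pow c)).add (PolyB.const _)) (by
      rintro e z ⟨h, -⟩
      change z.length = 1 * (e x).length ^ c + c at h
      have e1 := Nat.pow_le_pow_left (len_le_tot e x) c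
      rw [h]
      show _ ≤ 1 * tot e ^ c + c
      omega)
  have h3 : NX O fun e : ι → List Bool => (e β = e α ++ [true] ∧ pair (e x) (e α) ∈ C) ∨
      (e β = e α ++ [false] ∧ NegC D c (e x) (e s) (e α)) :=
    ((nx_snoc _ _ _).and (nx_pair_mem hC _ _)).or ((nx_snoc _ _ _).and (nx_negC hD _ _ _ _))
  exact h2.and h3

theorem nx_claim {ι : Type} [Finite ι] {C D : Lang} (hC : C ∈ NEXPLang O) (hD : D ∈ NEXPLang O)
    (c : ℕ) (x s : ι) (b : Bool) :
    NX O fun e : ι → List Bool => Claim C D c (e x) (e s) b := by
  have := Fintype.ofFinite ι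
  have hR := NX.reach (O := O) (ι := Fin 2) (S := fun e => Step C D c (e 0) (e 1))
    (nx_step hC hD c _ _ _ _) (g := fun n => 1 * n ^ c + c)
    (((PolyB.const 1).mul (PolyB.id.pow c)).add (PolyB.const _))
    (fun a b h => by
      have := Nat.pow_le_pow_left h c
      dsimp only
      omega) (by
      rintro e a b ⟨⟨w, h1, h2⟩, -⟩
      have e1 := Nat.pow_le_pow_left (len_le_tot e 0) c
      show _ ≤ 1 * tot e ^ c + c
      omega)
  have h1 : NX O fun e : Option (Option ι) → List Bool => e none = [] ∧
      Relation.ReflTransGen (Step C D c (e (some (some x))) (e (some (some s)))) (e none)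
        (e (some none)) := by
    refine (nx_const _ _).and ((hR.reindex (fun o : Option (Option (Fin 2)) => o.elim (some none)
      fun o' => o'.elim none ![some (some x), some (some s)])).congr fun e => Iff.rfl)
  have h2 := NX.exLe h1 none (by
    rintro e z ⟨h, -⟩
    change z = [] at h
    rw [h]
    simp)
  have h3 : NX O fun e : Option ι → List Bool =>
      (e none).length = 1 * (e (some x)).length ^ c + c := nx_powlin _ _ _ _ _ le_rfl
  have h4 : NX O fun e : Option ι → List Bool =>
      (b = true ∧ pair (e (some x)) (e none) ∈ C) ∨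
      (b = false ∧ NegC D c (e (some x)) (e (some s)) (e none)) :=
    ((nx_prop _).and (nx_pair_mem hC _ _)).or ((nx_prop _).and (nx_negC hD _ _ _ _))
  refine (NX.exists (h3.and (h2.and h4)) (g := fun n => 1 * n ^ c + c)
    (((PolyB.const 1).mul (PolyB.id.pow c)).add (PolyB.const _)) ?_).congr fun e => Iff.rfl
  rintro e z ⟨h, -⟩
  change z.length = 1 * (e x).length ^ c + c at h
  have e1 := Nat.pow_le_pow_left (len_le_tot e x) c
  rw [h]
  show _ ≤ 1 * tot e ^ c + c
  omega

theorem nx_bad {ι : Type} [Finite ι] {C D : Lang} (hC : C ∈ NEXPLang O) (hD : D ∈ NEXPLang O)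
    (c : ℕ) (x s : ι) : NX O fun e : ι → List Bool => Bad C D c (e x) (e s) := by
  have := Fintype.ofFinite ι
  have h1 : NX O fun e : Option (Option (Option ι)) → List Bool =>
      (e none).length = (e (some none)).length ∧ e none ∈ PadLang C ∧
        pair (e none) (e (some (some (some s)))) ∈ D :=
    (nx_len _ _).and ((nx_mem (padLang_mem hC) _).and (nx_pair_mem hD _ _))
  have h2 := NX.exLe h1 none (by
    rintro e z ⟨h, -⟩
    exact le_of_eq h)
  have h3 : NX O fun e : Option (Option ι) → List Bool =>
      e none = pair (e (some (some x))) (e (some none)) := nx_pair _ _ _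
  have h4 := NX.exists (h3.and h2) (g := fun n => 3 * n + 2)
    (((PolyB.const 3).mul PolyB.id).add (PolyB.const 2)) (by
      rintro e z ⟨h, -⟩
      change z = pair (e (some x)) (e none) at h
      have e1 := len_le_tot e (some x)
      have e2 := len_le_tot e none
      rw [h, length_pair]
      show _ ≤ 3 * tot e + 2
      omega)
  have h5 : NX O fun e : Option ι → List Bool =>
      (e none).length = 1 * (e (some x)).length ^ c + (c + 1) := nx_powlin _ _ _ _ _ le_rfl
  refine (NX.exists (h5.and h4) (g := fun n => 1 * n ^ c + (c + 1))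
    (((PolyB.const 1).mul (PolyB.id.pow c)).add (PolyB.const _)) ?_).congr fun e => Iff.rfl
  rintro e z ⟨h, -⟩
  change z.length = 1 * (e x).length ^ c + (c + 1) at h
  have e1 := Nat.pow_le_pow_left (len_le_tot e x) c
  rw [h]
  show _ ≤ 1 * tot e ^ c + (c + 1)
  omega

/-! ### Soundness and completeness -/

variable {C D : Lang} {c : ℕ} {x s : List Bool}

theorem negC_sound (hbad : ¬ Bad C D c x s) {α : List Bool} (h : NegC D c x s α) :
    pair x α ∉ C := by
  intro hC
  obtain ⟨z, hz, y, rfl, hy, u, rfl, hu⟩ := h
  exact hbad ⟨_, hy, _, rfl, _, rfl, ⟨_, _, rfl, _, _, rfl, hz, hC⟩, hu⟩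

theorem reach_sound (hbad : ¬ Bad C D c x s) {α : List Bool}
    (h : Relation.ReflTransGen (Step C D c x s) [] α) : α = ans C x α.length := by
  classical
  induction h with
  | refl => rfl
  | tail _ h1 ih =>
    obtain ⟨-, ⟨rfl, h2⟩ | ⟨rfl, h2⟩⟩ := h1
    · rw [List.length_append, List.length_singleton, ans, ← ih, decide_eq_true h2]
    · rw [List.length_append, List.length_singleton, ans, ← ih,
        decide_eq_false (negC_sound hbad h2)]

theorem claim_sound (hbad : ¬ Bad C D c x s) {b : Bool} (h : Claim C D c x s b) :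
    b = true ↔ pair x (ans C x (x.length ^ c + c)) ∈ C := by
  obtain ⟨α, h1, ⟨o, rfl, h2⟩, h3⟩ := h
  have h4 := reach_sound hbad h2
  rw [h1, one_mul] at h4
  rw [← h4]
  rcases h3 with ⟨rfl, h3⟩ | ⟨rfl, h3⟩
  · simp [h3]
  · simp [negC_sound hbad h3]

theorem good_of_correct
    (hs : ∀ y : List Bool, y.length = 2 * x.length + x.length ^ c + c + 3 →
      (y ∉ PadLang C ↔ pair y s ∈ D)) : ¬ Bad C D c x s := by
  rintro ⟨b, h1, w, rfl, y, h2, h3, h4⟩
  refine (hs y ?_).2 h4 h3
  rw [h2, length_pair, h1]
  ring

theorem negC_complete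
    (hs : ∀ y : List Bool, y.length = 2 * x.length + x.length ^ c + c + 3 →
      (y ∉ PadLang C ↔ pair y s ∈ D)) {α : List Bool} (hα : α.length ≤ x.length ^ c + c)
    (h : pair x α ∉ C) : NegC D c x s α := by
  refine ⟨true :: List.replicate (x.length ^ c + c - α.length) false, ⟨_, rfl⟩, _, rfl, ?_,
    _, rfl, ?_⟩
  · rw [List.length_append, List.length_cons, List.length_replicate]
    omega
  · refine (hs _ ?_).1 ?_
    · rw [length_pair, List.length_append, List.length_cons, List.length_replicate]
      omega
    · rintro ⟨x', b', h1, α', z', h2, ⟨j, rfl⟩, h3⟩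
      obtain ⟨rfl, rfl⟩ := pair_injective h1
      have := pad_injective h2
      subst this
      exact h h3

theorem reach_complete
    (hs : ∀ y : List Bool, y.length = 2 * x.length + x.length ^ c + c + 3 →
      (y ∉ PadLang C ↔ pair y s ∈ D)) : ∀ i ≤ x.length ^ c + c,
      Relation.ReflTransGen (Step C D c x s) [] (ans C x i) := by
  classical
  intro i
  induction i with
  | zero => intro _; exact .refl
  | succ i ih =>
    intro hi
    refine (ih (by omega)).tail ⟨⟨List.replicate (x.length ^ c + c) false, ?_, ?_⟩, ?_⟩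
    · simp
    · simp; omega
    · by_cases h : pair x (ans C x i) ∈ C
      · left
        exact ⟨by rw [ans, decide_eq_true h], h⟩
      · right
        exact ⟨by rw [ans, decide_eq_false h], negC_complete hs (by simp; omega) h⟩

theorem claim_complete
    (hs : ∀ y : List Bool, y.length = 2 * x.length + x.length ^ c + c + 3 →
      (y ∉ PadLang C ↔ pair y s ∈ D)) {b : Bool}
    (hb : b = true ↔ pair x (ans C x (x.length ^ c + c)) ∈ C) : Claim C D c x s b := by
  refine ⟨ans C x (x.length ^ c + c), by simp, ⟨_, rfl, reach_complete hs _ le_rfl⟩, ?_⟩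
  cases b
  · right
    refine ⟨rfl, negC_complete hs (by simp) fun h => ?_⟩
    exact absurd (hb.2 h) (by simp)
  · exact Or.inl ⟨rfl, hb.1 rfl⟩

/-- Few advice values for the complements of languages put all adaptive computations in the
difference hierarchy. -/
theorem adapt_subset_BH {m : ℕ} (h : ∀ L ∈ NEXPLang O, ∃ A : Finset (List Bool), A.card ≤ m ∧
    Lᶜ ∈ WithAdvice (NEXPLang O) {f | ∀ n, f n ∈ A}) : Adapt O ⊆ BH O m := by
  rintro L ⟨C, hC, c, hL⟩
  obtain ⟨A, hA, D, hD, f, hf, hfD⟩ := h _ (padLang_mem hC)
  have hfD' : ∀ y, y ∉ PadLang C ↔ pair y (f y.length) ∈ D := fun y => by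
    have := Set.ext_iff.1 hfD y
    simpa using this
  refine mem_BH_of_dec (P := fun j x => Alt A (Claim C D c x) (Bad C D c x) j)
    (fun x => alt_zero _ _ _) (fun j x => alt_anti) (fun x => alt_top (by omega)) (fun j => ?_)
    fun j x h1 h2 => ?_
  · have h1 : ∀ (s : List Bool) (b : Bool), NX O fun e : Fin 1 → List Bool => Claim C D c (e 0) s b := by
      intro s b
      refine (NX.exists (R := fun e : Option (Fin 1) → List Bool => e none = s ∧
        Claim C D c (e (some 0)) (e none) b) ((nx_const _ _).and (nx_claim hC hD _ _ _ _))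
        (g := fun _ => s.length) (PolyB.const _) ?_).congr fun e => ?_
      · rintro e z ⟨h, -⟩
        change z = s at h
        rw [h]
      · constructor
        · rintro ⟨z, h2, h3⟩
          change z = s at h2
          subst h2
          exact h3
        · intro h2
          exact ⟨s, rfl, h2⟩
    have h2 : ∀ (s : List Bool), NX O fun e : Fin 1 → List Bool => Bad C D c (e 0) s := by
      intro s
      refine (NX.exists (R := fun e : Option (Fin 1) → List Bool => e none = s ∧
        Bad C D c (e (some 0)) (e none)) ((nx_const _ _).and (nx_bad hC hD _ _ _))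
        (g := fun _ => s.length) (PolyB.const _) ?_).congr fun e => ?_
      · rintro e z ⟨h, -⟩
        change z = s at h
        rw [h]
      · constructor
        · rintro ⟨z, h2, h3⟩
          change z = s at h2
          subst h2
          exact h3
        · intro h2
          exact ⟨s, rfl, h2⟩
    have h3 : NX O fun e : Fin 1 → List Bool =>
        Alt A (Claim C D c (e 0)) (Bad C D c (e 0)) j := by
      unfold Alt
      exact NX.fin_exists fun l => (nx_prop _).and ((NX.fin_forall fun i => h1 _ _).and
        (NX.fin_forall fun i => NX.imp _ fun _ => h2 _))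
    exact nx_fin.1 h3
  · classical
    set N := 2 * x.length + x.length ^ c + c + 3 with hN
    have hs : ∀ y : List Bool, y.length = N → (y ∉ PadLang C ↔ pair y (f N) ∈ D) := by
      intro y hy
      rw [hfD', hy]
    have h3 : x ∈ L ↔ decide (x ∈ L) = true := by simp
    rw [h3]
    refine alt_value (b := decide (x ∈ L)) ?_ ⟨f N, hf N, good_of_correct hs,
      claim_complete hs (by simp [hL])⟩ h1 h2
    intro v _ hv b hb
    have h4 := claim_sound hv hb
    rw [← hL] at h4
    cases b
    · symm
      rw [decide_eq_false_iff_not]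
      intro h5
      exact absurd (h4.2 h5) (by simp)
    · symm
      rw [decide_eq_true_iff]
      exact h4.1 rfl

end Pool.Agent.LibNexp55
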