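import Pool.Agent.LibNexp.Advice

/-!
Relations in nondeterministic exponential time over finite sets of named string variables.
-/

namespace Pool.Agent.LibNexp55

open Function Pool.Agent.LibNexp

variable {O : List Bool → Bool}

/-- Relations between strings named by the elements of a finite type, recognised in
nondeterministic exponential time. -/
def NX (O : List Bool → Bool) {ι : Type} (R : (ι → List Bool) → Prop) : Prop :=
  ∃ (k : ℕ) (f : ι ≃ Fin k), NEXP O fun e : Fin k → List Bool => R (e ∘ f)

theorem NX.congr {ι : Type} {R R' : (ι → List Bool) → Prop} (h : NX O R)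
    (hR : ∀ e, R e ↔ R' e) : NX O R' := by
  have : R = R' := funext fun e => propext (hR e)
  rwa [← this]

theorem NX.reindex {ι κ : Type} [Finite κ] {R : (ι → List Bool) → Prop} (h : NX O R)
    (f : ι → κ) : NX O fun e : κ → List Bool => R (e ∘ f) := by
  obtain ⟨k, g, hg⟩ := h
  obtain ⟨l, ⟨u⟩⟩ := Finite.exists_equiv_fin κ
  refine ⟨l, u, (hg.reindex (u ∘ f ∘ g.symm)).congr fun e => ?_⟩
  have : (fun j => e ((u ∘ f ∘ g.symm) j)) ∘ g = (e ∘ u) ∘ f := by
    funext i
    simp
  rw [this]

theorem nx_fin {k : ℕ} {R : (Fin k → List Bool) → Prop} : NX O R ↔ NEXP O R := by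
  constructor
  · rintro ⟨l, g, hg⟩
    refine (hg.reindex g.symm).congr fun e => ?_
    have : (fun j => e (g.symm j)) ∘ g = e := by
      funext i
      simp
    rw [this]
  · intro h
    exact ⟨k, Equiv.refl _, h⟩

/-- A relation of fixed arity between some of the variables. -/
theorem nx_of {k : ℕ} {R : (Fin k → List Bool) → Prop} (h : NEXP O R) {ι : Type} [Finite ι]
    (f : Fin k → ι) : NX O fun e : ι → List Bool => R fun j => e (f j) :=
  (nx_fin.2 h).reindex f

theorem NX.and {ι : Type} {R₁ R₂ : (ι → List Bool) → Prop} (h₁ : NX O R₁) (h₂ : NX O R₂) :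
    NX O fun e => R₁ e ∧ R₂ e := by
  obtain ⟨k, f, hf⟩ := h₁
  have : Finite ι := Finite.of_equiv _ f.symm
  obtain ⟨l, g, hg⟩ := h₂
  refine ⟨k, f, hf.and ((hg.reindex (f ∘ g.symm)).congr fun e => ?_)⟩
  have : (fun j => e ((f ∘ g.symm) j)) ∘ g = e ∘ f := by
    funext i
    simp
  rw [this]

theorem NX.or {ι : Type} {R₁ R₂ : (ι → List Bool) → Prop} (h₁ : NX O R₁) (h₂ : NX O R₂) :
    NX O fun e => R₁ e ∨ R₂ e := by
  obtain ⟨k, f, hf⟩ := h₁
  have : Finite ι := Finite.of_equiv _ f.symm
  obtain ⟨l, g, hg⟩ := h₂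
  refine ⟨k, f, hf.or ((hg.reindex (f ∘ g.symm)).congr fun e => ?_)⟩
  have : (fun j => e ((f ∘ g.symm) j)) ∘ g = e ∘ f := by
    funext i
    simp
  rw [this]

theorem nx_true {ι : Type} [Finite ι] : NX O fun _ : ι → List Bool => True := by
  obtain ⟨k, ⟨f⟩⟩ := Finite.exists_equiv_fin ι
  refine ⟨k, f, nexp_of_prog skip (T := fun _ => 0) (PolyB.const _) (fun _ _ _ _ => trivial)
    fun e _ => ⟨0, _, le_rfl, run_skip' _⟩⟩

theorem nx_false {ι : Type} [Finite ι] : NX O fun _ : ι → List Bool => False := by
  obtain ⟨k, ⟨f⟩⟩ := Finite.exists_equiv_fin ι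
  refine ⟨k, f, (NEXP.finite_exists (O := O) (∅ : Finset ℕ) (R := fun _ _ => False)
    (by simp)).congr fun e => by simp⟩

theorem nx_prop {ι : Type} [Finite ι] (p : Prop) : NX O fun _ : ι → List Bool => p := by
  by_cases hp : p
  · simpa [hp] using nx_true
  · simpa [hp] using nx_false

theorem NX.finset_exists {ι α : Type} [Finite ι] (s : Finset α)
    {R : α → (ι → List Bool) → Prop} (h : ∀ a ∈ s, NX O (R a)) :
    NX O fun e => ∃ a ∈ s, R a e := by
  classical
  induction s using Finset.induction_on with
  | empty => simpa using nx_false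
  | insert a s ha ih =>
    refine ((h a (Finset.mem_insert_self _ _)).or
      (ih fun i hi => h i (Finset.mem_insert_of_mem hi))).congr fun e => ?_
    simp

theorem NX.finset_forall {ι α : Type} [Finite ι] (s : Finset α)
    {R : α → (ι → List Bool) → Prop} (h : ∀ a ∈ s, NX O (R a)) :
    NX O fun e => ∀ a ∈ s, R a e := by
  classical
  induction s using Finset.induction_on with
  | empty => simpa using nx_true
  | insert a s ha ih =>
    refine ((h a (Finset.mem_insert_self _ _)).and
      (ih fun i hi => h i (Finset.mem_insert_of_mem hi))).congr fun e => ?_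
    simp

theorem NX.fin_exists {ι α : Type} [Finite ι] [Finite α]
    {R : α → (ι → List Bool) → Prop} (h : ∀ a, NX O (R a)) :
    NX O fun e => ∃ a, R a e := by
  have := Fintype.ofFinite α
  refine (NX.finset_exists (Finset.univ : Finset α) (R := R) fun a _ => h a).congr fun e => ?_
  simp

theorem NX.fin_forall {ι α : Type} [Finite ι] [Finite α]
    {R : α → (ι → List Bool) → Prop} (h : ∀ a, NX O (R a)) :
    NX O fun e => ∀ a, R a e := by
  have := Fintype.ofFinite α
  refine (NX.finset_forall (Finset.univ : Finset α) (R := R) fun a _ => h a).congr fun e => ?_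
  simp

/-- The variables `e` and one more. -/
abbrev ext {ι : Type} (e : ι → List Bool) (z : List Bool) : Option ι → List Bool :=
  fun o => o.elim z e

/-- Number of letters of all variables. -/
noncomputable def tot {ι : Type} [Fintype ι] (e : ι → List Bool) : ℕ := ∑ i, (e i).length

theorem NX.exists {ι : Type} [Fintype ι] {R : (Option ι → List Bool) → Prop} (h : NX O R)
    {g : ℕ → ℕ} (hg : PolyB g) (hbound : ∀ e z, R (ext e z) → z.length ≤ g (tot e)) :
    NX O fun e : ι → List Bool => ∃ z, R (ext e z) := by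
  obtain ⟨k, u⟩ := Finite.exists_equiv_fin ι
  obtain ⟨u⟩ := u
  obtain ⟨l, v, hv⟩ := h
  refine ⟨k, u, ?_⟩
  set f : Fin l → Fin (k + 1) := fun j => (v.symm j).elim (Fin.last k) fun i => (u i).castSucc
    with hf
  have h1 := hv.reindex f
  have key : ∀ (e : Fin k → List Bool) (z : List Bool),
      (fun j => app e z (f j)) ∘ v = ext (e ∘ u) z := by
    intro e z
    funext o
    cases o with
    | none => simp [hf, app, ext]
    | some i => simp [hf, app, ext]
  refine (NEXP.exists h1 hg ?_).congr fun e => ?_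
  · intro e z hz
    rw [key] at hz
    have h2 := hbound _ _ hz
    have h3 : tot (e ∘ u) = size e := by
      unfold tot size
      exact Equiv.sum_comp u fun i => (e i).length
    rwa [h3] at h2
  · simp only [key]

end Pool.Agent.LibNexp55
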