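import Pool.Agent.LibNexp55.Par

/-!
The diagonal argument: a bounded number of queries for one level more.
-/

namespace Pool.Agent.LibNexp55

open Function Pool.Agent.LibNexp
open Pool.Agent.LibBHN (PTime FPTime PQuery POracle answers length_answers)

variable {O : List Bool → Bool}

/-- If every language of level `M + 1` is, up to `M` changes of mind, decided in polynomial
time, then level `M` is closed under complement. -/
theorem closed_of_diag {M : ℕ} (c0 : List Bool)
    (h : ∀ D ∈ BH O (M + 1), ∃ G ∈ PTime, ∃ Q : ℕ → List Bool → Prop,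
      (∀ w, Q 0 w) ∧ (∀ j w, Q (j + 1) w → Q j w) ∧ (∀ w, ¬ Q (M + 1) w) ∧
      (∀ j, {w | Q j w} ∈ NEXPLang O) ∧
      ∀ j w, Q j w → ¬ Q (j + 1) w → ((w ∈ D ↔ pair w c0 ∈ G) ↔ Even j)) :
    ∀ L ∈ BH O M, Lᶜ ∈ BH O M := by
  classical
  intro L hL
  obtain ⟨g, g1, g2, g3⟩ := mem_BH_iff.1 hL
  obtain ⟨R, hR, hu⟩ := LibBHN.exists_universal O
  set P : ℕ → List Bool → Prop := fun j y => j = 0 ∨ ∃ i z, y = pair i z ∧
    (j ≤ g z ∨ (j ≤ g z + 1 ∧ ∃ u, u = pair y c0 ∧ R false i u)) with hP
  have hPp : ∀ j i z, P j (pair i z) ↔
      j ≤ g z + if R false i (pair (pair i z) c0) then 1 else 0 := by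
    intro j i z
    constructor
    · rintro (rfl | ⟨i', z', h1, h2⟩)
      · exact Nat.zero_le _
      · obtain ⟨rfl, rfl⟩ := pair_injective h1
        rcases h2 with h2 | ⟨h2, u, rfl, h3⟩
        · omega
        · rw [if_pos h3]
          exact h2
    · intro h1
      right
      refine ⟨i, z, rfl, ?_⟩
      split_ifs at h1 with h2
      · exact Or.inr ⟨h1, _, rfl, h2⟩
      · exact Or.inl h1
  have hD : {y | ∃ i z, y = pair i z ∧
      Odd (g z + if R false i (pair (pair i z) c0) then 1 else 0)} ∈ BH O (M + 1) := by
    refine mem_BH_of_dec (P := P) (fun _ => Or.inl rfl) ?_ ?_ ?_ ?_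
    · rintro j y (h1 | ⟨i, z, rfl, h1⟩)
      · omega
      · right
        refine ⟨i, z, rfl, ?_⟩
        rcases h1 with h1 | ⟨h1, h2⟩
        · left; omega
        · right; exact ⟨by omega, h2⟩
    · rintro y (h1 | ⟨i, z, rfl, h1⟩)
      · omega
      · have := g1 z
        rcases h1 with h1 | ⟨h1, h2⟩ <;> omega
    · intro j
      have h1 : NX O fun e : Option (Option (Option (Fin 1))) → List Bool =>
          e none = pair (e (some (some (some 0)))) c0 ∧
            R false (e (some (some none))) (e none) := by
        refine NX.and ?_ ?_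
        · have h2 : NX O fun e : Option (Option (Option (Option (Fin 1)))) → List Bool =>
              e (some none) = pair (e (some (some (some (some 0))))) (e none) := nx_pair _ _ _
          exact nx_arg h2 _
        · exact (nx_of (hR false) ![some (some none), none]).congr fun e => by simp
      have h2 := NX.exists h1 (g := fun n => 2 * n + (c0.length + 2))
        (((PolyB.const 2).mul PolyB.id).add (PolyB.const _)) (by
          rintro e z ⟨h, -⟩
          change z = pair (e (some (some 0))) c0 at h
          have e1 := len_le_tot e (some (some 0))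
          rw [h, length_pair]
          show _ ≤ 2 * tot e + (c0.length + 2)
          omega)
      have h3 : ∀ n, NX O fun e : Option (Option (Fin 1)) → List Bool => n ≤ g (e none) :=
        fun n => nx_mem (g2 n) none
      have h3' : NX O fun e : Option (Option (Fin 1)) → List Bool => j ≤ g (e none) + 1 := by
        refine (h3 (j - 1)).congr fun e => ?_
        omega
      have h4 : NX O fun e : Option (Option (Fin 1)) → List Bool =>
          e (some (some 0)) = pair (e (some none)) (e none) := nx_pair _ _ _
      have h5 := NX.exLe (h4.and ((h3 j).or (h3'.and h2))) (some 0) (by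
        rintro e z ⟨h, -⟩
        change e (some 0) = pair (e none) z at h
        rw [h, length_pair]; omega)
      have h6 := NX.exLe h5 0 (by
        rintro e z ⟨v, h, -⟩
        change e 0 = pair z v at h
        rw [h, length_pair]; omega)
      exact nx_fin.1 ((nx_prop _).or (h6.congr fun e => Iff.rfl))
    · intro j y h1 h2
      by_cases hy : ∃ i z, y = pair i z
      · obtain ⟨i, z, rfl⟩ := hy
        rw [hPp] at h1 h2
        have h3 : j = g z + if R false i (pair (pair i z) c0) then 1 else 0 := by omega
        constructor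
        · rintro ⟨i', z', h4, h5⟩
          obtain ⟨rfl, rfl⟩ := pair_injective h4
          rw [h3]
          exact h5
        · intro h4
          rw [h3] at h4
          exact ⟨i, z, rfl, h4⟩
      · have h3 : j = 0 := by
          rcases h1 with h1 | ⟨i, z, h1, -⟩
          · exact h1
          · exact absurd ⟨i, z, h1⟩ hy
        subst h3
        constructor
        · rintro ⟨i, z, h4, -⟩
          exact absurd ⟨i, z, h4⟩ hy
        · intro h4
          simp at h4
  obtain ⟨G, hG, Q, q0, q1, q2, q3, q4⟩ := h _ hD
  obtain ⟨i, hi⟩ := hu G hG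
  refine mem_BH_of_dec (P := fun j z => Q j (pair i z))
    (fun z => q0 _) (fun j z => q1 _ _) (fun z => q2 _) (fun j => ?_) ?_
  · have h1 : NX O fun e : Option (Option (Fin 1)) → List Bool =>
        e none = pair (e (some none)) (e (some (some 0))) ∧ e none ∈ {w | Q j w} :=
      (nx_pair _ _ _).and (nx_mem (q3 j) _)
    have h2 := NX.exists h1 (g := fun n => 3 * n + 2)
      (((PolyB.const 3).mul PolyB.id).add (PolyB.const 2)) (by
        rintro e z ⟨h, -⟩
        change z = pair (e none) (e (some 0)) at h
        have e1 := len_le_tot e none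
        have e2 := len_le_tot e (some 0)
        rw [h, length_pair]
        show _ ≤ 3 * tot e + 2
        omega)
    have h3 := nx_arg h2 i
    refine nx_fin.1 (h3.congr fun e => ?_)
    constructor
    · rintro ⟨z, h4, h5⟩
      change z = pair i (e 0) at h4
      subst h4
      exact h5
    · intro h4
      exact ⟨_, rfl, h4⟩
  · intro j z h1 h2
    have h3 := q4 _ _ h1 h2
    have h5 : (∃ i' z', pair i z = pair i' z' ∧
        Odd (g z' + if R false i' (pair (pair i' z') c0) then 1 else 0)) ↔
        Odd (g z + if R false i (pair (pair i z) c0) then 1 else 0) := by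
      constructor
      · rintro ⟨i', z', h6, h7⟩
        obtain ⟨rfl, rfl⟩ := pair_injective h6
        exact h7
      · intro h6
        exact ⟨i, z, rfl, h6⟩
    change ((∃ i' z', _) ↔ _) ↔ _ at h3
    rw [h5] at h3
    have h6 := (hi (pair (pair i z) c0)).2
    rw [Set.mem_compl_iff, g3]
    by_cases h7 : R false i (pair (pair i z) c0)
    · have h8 := h6.1 h7
      rw [if_pos h7, Nat.odd_add_one] at h3
      rw [← Nat.not_even_iff_odd (n := j), ← h3]
      tauto
    · have h8 : pair (pair i z) c0 ∈ G := by
        by_contra h9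
        exact h7 (h6.2 h9)
      rw [if_neg h7, add_zero] at h3
      rw [← Nat.not_even_iff_odd (n := j), ← h3]
      tauto

/-- If `k` queries decide level `2 ^ k` then level `2 ^ k - 1` is closed under complement. -/
theorem closed_of_query (k : ℕ) (h : BH O (2 ^ k) ⊆ PQuery (NEXPLang O) k) :
    ∀ L ∈ BH O (2 ^ k - 1), Lᶜ ∈ BH O (2 ^ k - 1) := by
  have hk : 2 ^ k - 1 + 1 = 2 ^ k := Nat.sub_add_cancel (Nat.one_le_two_pow)
  refine closed_of_diag (vec k 0) fun D hD => ?_
  rw [hk] at hD
  obtain ⟨A, hA, f, hf, G, hG, hDG⟩ := h hD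
  refine ⟨G, hG, fun j w => Chain f A G w k j, fun w => chain_zero _ _ _ _ _,
    fun j w => chain_anti, fun w => ?_, fun j => nx_fin.1 (nx_chain hA hf hG _ _ _),
    fun j w h1 h2 => ?_⟩
  · rw [hk]
    exact chain_top
  · rw [hDG]
    exact chain_value h1 h2

/-- If `k` parallel queries decide level `k + 1` then level `k` is closed under complement. -/
theorem closed_of_par (k : ℕ) (h : BH O (k + 1) ⊆ PPar (NEXPLang O) k) :
    ∀ L ∈ BH O k, Lᶜ ∈ BH O k := by
  refine closed_of_diag (List.ofFn fun _ : Fin k => false) fun D hD => ?_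
  obtain ⟨A, hA, f, hf, G, hG, hDG⟩ := h hD
  refine ⟨G, hG, fun j w => PChain f A G w k j, fun w => pchain_zero,
    fun j w => mchain_anti, fun w => pchain_top, fun j => nx_fin.1 (nx_pchain hA hf hG _ _ _),
    fun j w h1 h2 => ?_⟩
  rw [hDG]
  exact pchain_value h1 h2

end Pool.Agent.LibNexp55
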