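import Pool.Agent.LibNexp55.Quant

/-!
Coding of tuples of strings by strings.
-/

namespace Pool.Agent.LibNexp55

open Function Pool.Agent.LibNexp

variable {O : List Bool → Bool}

/-- The string coding a tuple of strings. -/
def tup : ∀ {m : ℕ}, (Fin m → List Bool) → List Bool
  | 0, _ => []
  | _ + 1, e => pair (e 0) (tup fun i => e i.succ)

theorem length_tup : ∀ {m : ℕ} (e : Fin m → List Bool), (tup e).length = 2 * size e + 2 * m := by
  intro m
  induction m with
  | zero => intro e; simp [tup, size]
  | succ m ih =>
    intro e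
    rw [tup, length_pair, ih]
    unfold size
    rw [Fin.sum_univ_succ]
    ring

theorem tup_injective : ∀ {m : ℕ} {e e' : Fin m → List Bool}, tup e = tup e' → e = e' := by
  intro m
  induction m with
  | zero => intro e e' _; funext i; exact i.elim0
  | succ m ih =>
    intro e e' h
    obtain ⟨h1, h2⟩ := pair_injective h
    have h3 := ih h2
    funext i
    refine Fin.cases h1 (fun i => ?_) i
    exact congrFun h3 i

theorem len_le_tot {ι : Type} [Fintype ι] (e : ι → List Bool) (i : ι) :
    (e i).length ≤ tot e :=
  Finset.single_le_sum (f := fun i => (e i).length) (fun _ _ => Nat.zero_le _)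
    (Finset.mem_univ _)

theorem nx_pair {ι : Type} [Finite ι] (i j k : ι) :
    NX O fun e : ι → List Bool => e k = pair (e i) (e j) := by
  refine (nx_of (nexp_pairRel (O := O)) ![i, j, k]).congr fun e => ?_
  simp

theorem nx_const {ι : Type} [Finite ι] (c : List Bool) (i : ι) :
    NX O fun e : ι → List Bool => e i = c := by
  refine (nx_of (nexp_const (O := O) c (0 : Fin 1)) ![i]).congr fun e => ?_
  simp

theorem nx_mem {ι : Type} [Finite ι] {B : Lang} (hB : B ∈ NEXPLang O) (i : ι) :
    NX O fun e : ι → List Bool => e i ∈ B := by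
  refine (nx_of (nexp_mem hB (0 : Fin 1)) ![i]).congr fun e => ?_
  simp

theorem nx_tup : ∀ {m : ℕ} {ι : Type} [Finite ι] (f : Fin m → ι) (j : ι),
    NX O fun e : ι → List Bool => e j = tup fun i => e (f i) := by
  intro m
  induction m with
  | zero => intro ι _ f j; exact nx_const [] j
  | succ m ih =>
    intro ι _ f j
    have := Fintype.ofFinite ι
    refine (NX.exists (ι := ι) (R := fun e => e (some j) = pair (e (some (f 0))) (e none) ∧
      e none = tup fun i => e (some (f i.succ))) ((nx_pair _ _ _).and
        (ih (fun i => some (f i.succ)) none)) (g := fun n => n) PolyB.id ?_).congr fun e => ?_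
    · rintro e z ⟨h, -⟩
      change e j = pair (e (f 0)) z at h
      have e0 := len_le_tot e j
      rw [h, length_pair] at e0
      omega
    · constructor
      · rintro ⟨z, h1, h2⟩
        change e j = pair (e (f 0)) z at h1
        change z = tup fun i => e (f i.succ) at h2
        rw [h1, h2]
        rfl
      · intro h
        exact ⟨_, h, rfl⟩

theorem size_comp_tot {ι : Type} [Fintype ι] {m : ℕ} (f : Fin m → ι) (e : ι → List Bool) :
    (size fun i => e (f i)) ≤ m * tot e := by
  unfold size
  refine le_trans (Finset.sum_le_card_nsmul _ _ (tot e) fun i _ => len_le_tot e _) ?_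
  simp

theorem nx_tup_mem {m : ℕ} {ι : Type} [Finite ι] (f : Fin m → ι) {B : Lang}
    (hB : B ∈ NEXPLang O) : NX O fun e : ι → List Bool => (tup fun i => e (f i)) ∈ B := by
  have := Fintype.ofFinite ι
  refine (NX.exists (ι := ι) (R := fun e => (e none = tup fun i => e (some (f i))) ∧ e none ∈ B)
    ((nx_tup _ _).and (nx_mem hB none)) (g := fun n => 2 * (m * n) + 2 * m)
    (((PolyB.const 2).mul ((PolyB.const m).mul PolyB.id)).add (PolyB.const _)) ?_).congr
      fun e => ?_
  · rintro e z ⟨h, -⟩
    change z = tup fun i => e (f i) at h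
    have := size_comp_tot f e
    rw [h, length_tup]
    show _ ≤ 2 * (m * tot e) + 2 * m
    omega
  · constructor
    · rintro ⟨z, h1, h2⟩
      change z = tup fun i => e (f i) at h1
      rw [h1] at h2
      exact h2
    · intro h
      exact ⟨_, rfl, h⟩

/-- Place a tuple with known first component. -/
def splitFirst {ι : Type} {m : ℕ} : ι ⊕ Fin (m + 1) → Option (Option ι) ⊕ Fin m :=
  Sum.elim (fun i => Sum.inl (some (some i))) (Fin.cases (Sum.inl (some none)) fun i => Sum.inr i)

theorem elim_splitFirst {ι : Type} {m : ℕ} (e : ι → List Bool) (a b : List Bool)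
    (y : Fin m → List Bool) : Sum.elim (ext (ext e a) b) y ∘ splitFirst =
      Sum.elim e (Fin.cons (α := fun _ => List Bool) a y) := by
  funext s
  rcases s with i | i
  · simp [splitFirst, ext]
  · refine Fin.cases ?_ (fun i => ?_) i
    · simp [splitFirst, ext]
    · simp [splitFirst]

/-- Quantification over the tuple coded by a variable. -/
theorem nx_decode : ∀ {m : ℕ} {ι : Type} [Finite ι] {R : (ι ⊕ Fin m → List Bool) → Prop},
    NX O R → ∀ j : ι, NX O fun e : ι → List Bool => ∃ y : Fin m → List Bool,
      e j = tup y ∧ R (Sum.elim e y) := by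
  intro m
  induction m with
  | zero =>
    intro ι _ R h j
    refine ((nx_const [] j).and (h.reindex (Sum.elim id (fun i : Fin 0 => i.elim0)))).congr
      fun e => ?_
    constructor
    · rintro ⟨h1, h2⟩
      refine ⟨fun i => i.elim0, h1, ?_⟩
      rw [elim_zero]
      exact h2
    · rintro ⟨y, h1, h2⟩
      rw [elim_zero] at h2
      exact ⟨h1, h2⟩
  | succ m ih =>
    intro ι _ R h j
    have := Fintype.ofFinite ι
    have h1 := ih (h.reindex splitFirst) none
    have h2 : NX O fun e : Option (Option ι) → List Bool =>
        e (some (some j)) = pair (e (some none)) (e none) ∧ ∃ y : Fin m → List Bool,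
          e none = tup y ∧ R (Sum.elim e y ∘ splitFirst) := (nx_pair _ _ _).and h1
    have h3 := NX.exists h2 (g := fun n => n) PolyB.id (by
      rintro e z ⟨h, -⟩
      change e (some j) = pair (e none) z at h
      have e0 := len_le_tot e (some j)
      rw [h, length_pair] at e0
      omega)
    have h4 := NX.exists h3 (g := fun n => n) PolyB.id (by
      rintro e z ⟨w, h, -⟩
      change e j = pair z w at h
      have e0 := len_le_tot e j
      rw [h, length_pair] at e0
      omega)
    refine h4.congr fun e => ?_
    constructor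
    · rintro ⟨a, b, h5, y, h6, h7⟩
      rw [elim_splitFirst] at h7
      change e j = pair a b at h5
      change b = tup y at h6
      refine ⟨_, ?_, h7⟩
      rw [h5, h6]
      simp [tup]
    · rintro ⟨y, h5, h6⟩
      refine ⟨y 0, tup fun i => y i.succ, h5, fun i => y i.succ, rfl, ?_⟩
      rw [elim_splitFirst]
      have : Fin.cons (α := fun _ => List Bool) (y 0) (fun i => y i.succ) = y :=
        Fin.cons_self_tail y
      rwa [this]

theorem lang_of_nx {m : ℕ} {R : (Fin m → List Bool) → Prop} (h : NX O R) :
    {z | ∃ y : Fin m → List Bool, z = tup y ∧ R y} ∈ NEXPLang O := by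
  have h1 : NX O fun e : Fin 1 ⊕ Fin m → List Bool => R fun i => e (Sum.inr i) :=
    h.reindex Sum.inr
  have h2 := nx_fin.1 (nx_decode h1 (0 : Fin 1))
  exact h2.congr fun e => Iff.rfl

end Pool.Agent.LibNexp55
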