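import Pool.Agent.LibNexp55.BH
import Pool.Agent.LibNexp55.Tup

/-!
Closure of a level of the difference hierarchy under complement gives a recognition of the
complements with few advice values.
-/

namespace Pool.Agent.LibNexp55

open Function Pool.Agent.LibNexp

variable {O : List Bool → Bool}

theorem NX.imp {ι : Type} [Finite ι] {R : (ι → List Bool) → Prop} (p : Prop) (h : p → NX O R) :
    NX O fun e => p → R e := by
  by_cases hp : p
  · simpa [hp] using h hp
  · simpa [hp] using nx_true

theorem nx_mid {ι : Type} [Finite ι] (w : List Bool) (i j k : ι) :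
    NX O fun e : ι → List Bool => e k = e i ++ w ++ e j := by
  refine (nx_of (nexp_subst (O := O) (fun b => [b]) (fun b => [b]) w) ![i, j, k]).congr
    fun e => ?_
  simp

/-- The strings `a`, `b` differ at some place. -/
def Diff (a b : List Bool) : Prop :=
  ∃ u v v', (a = u ++ [true] ++ v ∧ b = u ++ [false] ++ v') ∨
    (a = u ++ [false] ++ v ∧ b = u ++ [true] ++ v')

theorem diff_iff : ∀ {a b : List Bool}, a.length = b.length → (Diff a b ↔ a ≠ b) := by
  intro a
  induction a with
  | nil =>
    intro b h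
    have : b = [] := by simpa using h.symm
    subst this
    simp [Diff]
  | cons c a ih =>
    intro b h
    cases b with
    | nil => simp at h
    | cons d b =>
      have h' : a.length = b.length := by simpa using h
      constructor
      · rintro ⟨u, v, v', h1 | h1⟩ rfl_
        · rw [rfl_, h1.2] at h1
          have := h1.1
          simp at this
        · rw [rfl_, h1.2] at h1
          have := h1.1
          simp at this
      · intro hne
        by_cases hcd : c = d
        · subst hcd
          obtain ⟨u, v, v', h1⟩ := (ih h').2 (fun hab => hne (by rw [hab]))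
          refine ⟨c :: u, v, v', ?_⟩
          rcases h1 with ⟨h1, h2⟩ | ⟨h1, h2⟩
          · left; simp [h1, h2]
          · right; simp [h1, h2]
        · refine ⟨[], a, b, ?_⟩
          cases c <;> cases d <;> simp at hcd ⊢

theorem nx_diff {ι : Type} [Finite ι] (i j : ι) :
    NX O fun e : ι → List Bool => Diff (e i) (e j) := by
  have := Fintype.ofFinite ι
  have h1 : NX O fun e : Option (Option (Option ι)) → List Bool =>
      (e (some (some (some i))) = e (some (some none)) ++ [true] ++ e (some none) ∧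
        e (some (some (some j))) = e (some (some none)) ++ [false] ++ e none) ∨
      (e (some (some (some i))) = e (some (some none)) ++ [false] ++ e (some none) ∧
        e (some (some (some j))) = e (some (some none)) ++ [true] ++ e none) :=
    ((nx_mid _ _ _ _).and (nx_mid _ _ _ _)).or ((nx_mid _ _ _ _).and (nx_mid _ _ _ _))
  have h2 := NX.exists h1 (g := fun n => n) PolyB.id (by
    intro e z h
    have h3 : z.length ≤ (e (some (some j))).length := by
      rcases h with ⟨-, h⟩ | ⟨-, h⟩
      · change e (some (some j)) = e (some none) ++ [false] ++ z at h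
        rw [h]; simp; omega
      · change e (some (some j)) = e (some none) ++ [true] ++ z at h
        rw [h]; simp; omega
    exact le_trans h3 (len_le_tot e _))
  have h3 := NX.exists h2 (g := fun n => n) PolyB.id (by
    rintro e z ⟨w, h⟩
    have h3 : z.length ≤ (e (some i)).length := by
      rcases h with ⟨h, -⟩ | ⟨h, -⟩
      · change e (some i) = e none ++ [true] ++ z at h
        rw [h]; simp; omega
      · change e (some i) = e none ++ [false] ++ z at h
        rw [h]; simp; omega
    exact le_trans h3 (len_le_tot e _))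
  have h4 := NX.exists h3 (g := fun n => n) PolyB.id (by
    rintro e z ⟨v, w, h⟩
    have h3 : z.length ≤ (e i).length := by
      rcases h with ⟨h, -⟩ | ⟨h, -⟩
      · change e i = z ++ [true] ++ v at h
        rw [h]; simp
      · change e i = z ++ [false] ++ v at h
        rw [h]; simp
    exact le_trans h3 (len_le_tot e _))
  exact h4.congr fun e => Iff.rfl

variable {m : ℕ}

/-- The last place of a string in `L`, counted from one. -/
noncomputable def top (L : Lang) (y : Fin m → List Bool) : ℕ := by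
  classical
  exact Finset.univ.sup fun j : Fin m => if y j ∈ L then (j : ℕ) + 1 else 0

theorem le_top {L : Lang} {y : Fin m → List Bool} {i : ℕ} :
    i + 1 ≤ top L y ↔ ∃ j : Fin m, i ≤ (j : ℕ) ∧ y j ∈ L := by
  classical
  unfold top
  rw [Finset.le_sup_iff (by simp)]
  constructor
  · rintro ⟨j, -, h⟩
    split_ifs at h with h1
    · exact ⟨j, by omega, h1⟩
    · simp at h
  · rintro ⟨j, h1, h2⟩
    exact ⟨j, Finset.mem_univ _, by rw [if_pos h2]; omega⟩

theorem top_le {L : Lang} {y : Fin m → List Bool} : top L y ≤ m := by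
  classical
  unfold top
  refine Finset.sup_le fun j _ => ?_
  split_ifs
  · exact j.2
  · exact Nat.zero_le _

/-- The language of coded tuples for which the last place of a string in `L` is odd. -/
def TopLang (L : Lang) (m : ℕ) : Lang := {z | ∃ y : Fin m → List Bool, z = tup y ∧ Odd (top L y)}

theorem topLang_mem {L : Lang} (hL : L ∈ NEXPLang O) : TopLang L m ∈ BH O m := by
  classical
  refine mem_BH_iff.2 ⟨fun z => if h : ∃ y : Fin m → List Bool, z = tup y then
    top L h.choose else 0, fun z => ?_, fun i => ?_, fun z => ?_⟩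
  · dsimp only
    split_ifs
    · exact top_le
    · exact Nat.zero_le _
  · rcases i with _ | i
    · simpa using univ_mem
    · have h1 : NX O fun y : Fin m → List Bool => ∃ j : Fin m, i ≤ (j : ℕ) ∧ y j ∈ L :=
        NX.fin_exists fun j => (nx_prop _).and (nx_mem hL j)
      convert lang_of_nx h1 using 1
      ext z
      show i + 1 ≤ dite _ _ _ ↔ ∃ y : Fin m → List Bool, z = tup y ∧ _
      split_ifs with h
      · rw [le_top]
        constructor
        · intro h2
          exact ⟨_, h.choose_spec, h2⟩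
        · rintro ⟨y, h3, h4⟩
          have : h.choose = y := tup_injective (h.choose_spec.symm.trans h3)
          rwa [this]
      · constructor
        · intro h2; omega
        · rintro ⟨y, h3, -⟩
          exact absurd ⟨y, h3⟩ h
  · show (∃ y : Fin m → List Bool, z = tup y ∧ Odd (top L y)) ↔ _
    dsimp only
    split_ifs with h
    · constructor
      · rintro ⟨y, h3, h4⟩
        have : h.choose = y := tup_injective (h.choose_spec.symm.trans h3)
        rwa [this]
      · intro h2
        exact ⟨_, h.choose_spec, h2⟩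
    · constructor
      · rintro ⟨y, h3, -⟩
        exact absurd ⟨y, h3⟩ h
      · intro h2
        simp at h2

/-- The condition checked for the string `z`, for the value `p` of the advice. -/
def Cond (L : Lang) (g : List Bool → ℕ) (p : Fin m) (z : List Bool) : Prop :=
  ∀ x : Fin m → List Bool, (∀ i, (x i).length = z.length) →
    (∃ i : Fin m, (p : ℕ) + 1 ≤ i ∧ x i ∈ L ∧ Diff (x i) z) ∨
    (∃ y : Fin m → List Bool, (∀ i, (y i).length = z.length) ∧
      (∀ i : Fin m, (p : ℕ) + 1 ≤ i → y i = x i) ∧ tup y ∈ {u | (p : ℕ) + 2 ≤ g u}) ∨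
    (∀ w : List Bool, w.length = z.length → (w ∈ L ∧ Diff w z) ∨
      ∃ y : Fin m → List Bool, (∀ i, (y i).length = z.length) ∧
        (∀ i : Fin m, (p : ℕ) + 1 ≤ i → y i = x i) ∧ y p = w ∧ tup y ∈ {u | (p : ℕ) + 1 ≤ g u})

theorem nx_cond {L : Lang} (hL : L ∈ NEXPLang O) {g : List Bool → ℕ} (hg : Below O g)
    (p : Fin m) {ι : Type} [Finite ι] (j : ι) :
    NX O fun e : ι → List Bool => Cond L g p (e j) := by
  have hA : NX O fun e : ι ⊕ Fin m → List Bool =>
      ∃ i : Fin m, (p : ℕ) + 1 ≤ i ∧ e (Sum.inr i) ∈ L ∧ Diff (e (Sum.inr i)) (e (Sum.inl j)) :=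
    NX.fin_exists fun i => (nx_prop _).and ((nx_mem hL _).and (nx_diff _ _))
  have hB : NX O fun e : ι ⊕ Fin m → List Bool => ∃ y : Fin m → List Bool,
      (∀ i, (y i).length = (e (Sum.inl j)).length) ∧
      (∀ i : Fin m, (p : ℕ) + 1 ≤ i → y i = e (Sum.inr i)) ∧
        tup y ∈ {u | (p : ℕ) + 2 ≤ g u} := by
    have h1 : NX O fun e : (ι ⊕ Fin m) ⊕ Fin m → List Bool =>
        (∀ i : Fin m, (p : ℕ) + 1 ≤ i → e (Sum.inr i) = e (Sum.inl (Sum.inr i))) ∧
        (tup fun i => e (Sum.inr i)) ∈ {u | (p : ℕ) + 2 ≤ g u} :=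
      (NX.fin_forall fun i => NX.imp _ fun _ => nx_eq _ _).and (nx_tup_mem _ (hg _))
    exact (h1.exT (Sum.inl j)).congr fun e => Iff.rfl
  have hC : NX O fun e : ι ⊕ Fin m → List Bool =>
      ∀ w : List Bool, w.length = (e (Sum.inl j)).length → (w ∈ L ∧ Diff w (e (Sum.inl j))) ∨
      ∃ y : Fin m → List Bool, (∀ i, (y i).length = (e (Sum.inl j)).length) ∧
        (∀ i : Fin m, (p : ℕ) + 1 ≤ i → y i = e (Sum.inr i)) ∧ y p = w ∧
          tup y ∈ {u | (p : ℕ) + 1 ≤ g u} := by
    have h1 : NX O fun e : Option (ι ⊕ Fin m) ⊕ Fin m → List Bool =>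
        (∀ i : Fin m, (p : ℕ) + 1 ≤ i → e (Sum.inr i) = e (Sum.inl (some (Sum.inr i)))) ∧
        e (Sum.inr p) = e (Sum.inl none) ∧
        (tup fun i => e (Sum.inr i)) ∈ {u | (p : ℕ) + 1 ≤ g u} :=
      (NX.fin_forall fun i => NX.imp _ fun _ => nx_eq _ _).and
        ((nx_eq _ _).and (nx_tup_mem _ (hg _)))
    have h2 : NX O fun e : Option (ι ⊕ Fin m) → List Bool =>
        (e none ∈ L ∧ Diff (e none) (e (some (Sum.inl j)))) ∨ ∃ y : Fin m → List Bool,
          (∀ i, (y i).length = (e (some (Sum.inl j))).length) ∧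
          (∀ i : Fin m, (p : ℕ) + 1 ≤ i → y i = e (some (Sum.inr i))) ∧ y p = e none ∧
          tup y ∈ {u | (p : ℕ) + 1 ≤ g u} :=
      ((nx_mem hL _).and (nx_diff _ _)).or ((h1.exT (some (Sum.inl j))).congr fun e => Iff.rfl)
    exact (h2.all1 (Sum.inl j)).congr fun e => Iff.rfl
  exact ((hA.or (hB.or hC)).allT j).congr fun e => Iff.rfl

/-- No string from place `j` on is in `L`, and the last `m - j` strings do not allow more
than `j`. -/
def Hard (L : Lang) (g : List Bool → ℕ) (n j : ℕ) (x : Fin m → List Bool) : Prop :=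
  (∀ i, (x i).length = n) ∧ (∀ i : Fin m, j ≤ i → x i ∉ L) ∧
    ∀ y : Fin m → List Bool, (∀ i, (y i).length = n) → (∀ i : Fin m, j ≤ i → y i = x i) →
      g (tup y) ≤ j

theorem cond_correct {L : Lang} {g : List Bool → ℕ} (hgm : ∀ x, g x ≤ m)
    (hpar : ∀ y : Fin m → List Bool, Odd (g (tup y)) ↔ ¬ Odd (top L y)) (n : ℕ) :
    ∃ p : Fin m, ∀ z : List Bool, z.length = n → (z ∉ L ↔ Cond L g p z) := by
  classical
  have hex : ∃ j, ∃ x : Fin m → List Bool, Hard L g n j x :=
    ⟨m, fun _ => List.replicate n false, by simp, fun i hi => absurd i.2 (by omega),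
      fun y _ _ => hgm _⟩
  have h0 : ∀ x : Fin m → List Bool, ¬ Hard L g n 0 x := by
    rintro x ⟨h1, h2, h3⟩
    have h4 := h3 x h1 fun _ _ => rfl
    have h5 : top L x = 0 := by
      by_contra h5
      obtain ⟨j, -, h6⟩ := le_top.1 (Nat.one_le_iff_ne_zero.2 h5)
      exact h2 j (Nat.zero_le _) h6
    have h6 := hpar x
    rw [h5, Nat.le_zero.1 h4] at h6
    simp at h6
  set j := Nat.find hex with hj
  obtain ⟨x0, hx0⟩ := Nat.find_spec hex
  have hmin : ∀ i < j, ∀ x : Fin m → List Bool, ¬ Hard L g n i x := fun i hi x hx =>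
    Nat.find_min hex hi ⟨x, hx⟩
  have hj1 : j ≠ 0 := by
    intro h
    rw [← hj, h] at hx0
    exact h0 _ hx0
  have hjm : j ≤ m := Nat.find_min' hex
    ⟨fun _ => List.replicate n false, by simp, fun i hi => absurd i.2 (by omega),
      fun y _ _ => hgm _⟩
  obtain ⟨q, hq⟩ := Nat.exists_eq_succ_of_ne_zero hj1
  have hqm : q < m := by omega
  refine ⟨⟨q, hqm⟩, fun z hz => ⟨fun hzL => ?_, fun hC hzL => ?_⟩⟩
  · intro x hx
    by_cases hA : ∃ i : Fin m, q + 1 ≤ i ∧ x i ∈ L ∧ Diff (x i) z
    · exact Or.inl hA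
    right
    by_cases hB : ∃ y : Fin m → List Bool, (∀ i, (y i).length = z.length) ∧
      (∀ i : Fin m, q + 1 ≤ i → y i = x i) ∧ tup y ∈ {u | q + 2 ≤ g u}
    · exact Or.inl hB
    right
    intro w hw
    by_cases hwL : w ∈ L
    · exact Or.inl ⟨hwL, (diff_iff hw).2 fun h => hzL (h ▸ hwL)⟩
    right
    by_contra hcon
    push Not at hA hB hcon
    have hxL : ∀ i : Fin m, q + 1 ≤ i → x i ∉ L := by
      intro i hi hiL
      exact hA i hi hiL ((diff_iff (hx i)).2 fun h => hzL (h ▸ hiL))
    refine hmin q (by omega) (fun i => if (i : ℕ) = q then w else x i) ⟨?_, ?_, ?_⟩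
    · intro i
      dsimp only
      split_ifs
      · rw [hw, hz]
      · rw [hx, hz]
    · intro i hi
      dsimp only
      split_ifs with h
      · exact hwL
      · exact hxL i (by omega)
    · intro y hy hyx
      have h1 : ∀ i : Fin m, q + 1 ≤ i → y i = x i := by
        intro i hi
        rw [hyx i (by omega)]
        exact if_neg (by omega)
      have h2 : y ⟨q, hqm⟩ = w := by
        rw [hyx ⟨q, hqm⟩ le_rfl]
        simp
      by_contra h3
      exact hcon y (fun i => by rw [hy, hz]) h1 h2 (show q + 1 ≤ g (tup y) by omega)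
  · rw [← hj] at hx0
    obtain ⟨h1, h2, h3⟩ := hx0
    rcases hC x0 (fun i => by rw [h1, hz]) with ⟨i, hi, hiL, -⟩ | ⟨y, hy1, hy2, hy3⟩ | hC
    · exact h2 i (by rw [hq]; exact hi) hiL
    · have := h3 y (fun i => by rw [hy1, hz]) fun i hi => hy2 i (by rw [hq] at hi; exact hi)
      change q + 2 ≤ g (tup y) at hy3
      omega
    · rcases hC z rfl with ⟨-, h4⟩ | ⟨y, hy1, hy2, hy3, hy4⟩
      · exact (diff_iff rfl).1 h4 rfl
      · have h5 := h3 y (fun i => by rw [hy1, hz]) fun i hi => hy2 i (by rw [hq] at hi; exact hi)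
        change q + 1 ≤ g (tup y) at hy4
        have h6 : g (tup y) = q + 1 := by omega
        have h7 : top L y = q + 1 := by
          refine le_antisymm ?_ (le_top.2 ⟨⟨q, hqm⟩, le_rfl, by rw [hy3]; exact hzL⟩)
          by_contra h8
          obtain ⟨i, hi, hiL⟩ := le_top.1 (show q + 1 + 1 ≤ top L y by omega)
          refine h2 i (by rw [hq]; exact hi) ?_
          rw [← hy2 i hi]
          exact hiL
        have h8 := hpar y
        rw [h6, h7] at h8
        by_cases h9 : Odd (q + 1)
        · exact (h8.1 h9) h9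
        · exact h9 (h8.2 h9)

/-- If level `m` of the difference hierarchy is closed under complement then every
complement is recognised with `m` advice values. -/
theorem values_of_closed (hm : 1 ≤ m) (h : ∀ L ∈ BH O m, Lᶜ ∈ BH O m)
    {L : Lang} (hL : L ∈ NEXPLang O) {A : Finset (List Bool)} (hA : m ≤ A.card) :
    Lᶜ ∈ WithAdvice (NEXPLang O) {f | ∀ n, f n ∈ A} := by
  classical
  obtain ⟨g, g1, g2, g3⟩ := mem_BH_iff.1 (h _ (topLang_mem (m := m) hL))
  have hpar : ∀ y : Fin m → List Bool, Odd (g (tup y)) ↔ ¬ Odd (top L y) := by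
    intro y
    rw [← g3 (tup y)]
    refine not_congr ⟨?_, fun h1 => ⟨y, rfl, h1⟩⟩
    rintro ⟨y', h1, h2⟩
    rw [tup_injective h1]
    exact h2
  choose p hp using cond_correct g1 hpar
  obtain ⟨ι⟩ : Nonempty (Fin m ↪ A) := Function.Embedding.nonempty_of_card_le (by simpa using hA)
  have hC : NEXP O fun e : Fin 2 → List Bool =>
      ∃ q : Fin m, e 1 = (ι q : List Bool) ∧ Cond L g q (e 0) :=
    nx_fin.1 (NX.fin_exists fun q => (nx_const _ 1).and (nx_cond hL g2 q 0))
  obtain ⟨D, hD, hDC⟩ := rel_of_nexp (C := fun x b => ∃ q : Fin m, b = (ι q : List Bool) ∧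
    Cond L g q x) hC
  refine ⟨D, hD, fun n => (ι (p n) : List Bool), fun n => (ι (p n)).2, ?_⟩
  ext x
  show x ∉ L ↔ pair x _ ∈ D
  rw [hDC, hp x.length x rfl]
  constructor
  · intro h1
    exact ⟨_, rfl, h1⟩
  · rintro ⟨q, h1, h2⟩
    have : p x.length = q := ι.injective (Subtype.ext h1)
    rwa [this]

end Pool.Agent.LibNexp55
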