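import Pool.Agent.LibBHN.All

/-!
Universal quantification over all strings of the length of a variable.
-/

namespace Pool.Agent.LibNexp55

open Function Pool.Agent.LibNexp

variable {O : List Bool → Bool}

theorem nexp_forall {k : ℕ} {R : (Fin (k + 1) → List Bool) → Prop} (hR : NEXP O R) (i : Fin k) :
    NEXP O fun e : Fin k → List Bool => ∀ y : List Bool, y.length = (e i).length → R (app e y) :=
  NEXP.forall hR i

end Pool.Agent.LibNexp55
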