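import Pool.Agent.LibNexp55.Mind

/-!
A bounded number of adaptive queries and the difference hierarchy.
-/

namespace Pool.Agent.LibNexp55

open Function Pool.Agent.LibNexp
open Pool.Agent.LibBHN (PTime FPTime PQuery POracle answers length_answers)

variable {O : List Bool → Bool}

theorem vec_inj : ∀ {i v v' : ℕ}, v < 2 ^ i → v' < 2 ^ i → vec i v = vec i v' → v = v' := by
  intro i
  induction i with
  | zero => intro v v' h h' _; simp at h h'; omega
  | succ i ih =>
    intro v v' h h' he
    rw [vec, vec] at he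
    rw [pow_succ] at h h'
    have h1 := List.append_inj he (by simp)
    have h2 := ih (by omega) (by omega) h1.1
    have h3 : (v % 2 = 1) ↔ (v' % 2 = 1) := by simpa using h1.2
    omega

/-- Binary search: `2 ^ k - 1` levels are decided by `k` queries. -/
theorem BH_subset_query (k : ℕ) : BH O (2 ^ k - 1) ⊆ PQuery (NEXPLang O) k := by
  classical
  intro L hL
  obtain ⟨g, g1, g2, g3⟩ := mem_BH_iff.1 hL
  have gk : ∀ x, g x < 2 ^ k := fun x => by
    have := g1 x
    have : 0 < 2 ^ k := by positivity
    omega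
  have hR : NEXP O fun e : Fin 2 → List Bool => ∃ i ∈ Finset.range k, ∃ v ∈ Finset.range (2 ^ i),
      e 1 = vec i v ∧ e 0 ∈ {x | (2 * v + 1) * 2 ^ (k - 1 - i) ≤ g x} :=
    nx_fin.1 (NX.finset_exists _ fun i _ => NX.finset_exists _ fun v _ =>
      (nx_const _ _).and (nx_mem (g2 _) _))
  obtain ⟨A, hA, hAC⟩ := rel_of_nexp (C := fun x α => ∃ i ∈ Finset.range k,
    ∃ v ∈ Finset.range (2 ^ i), α = vec i v ∧ x ∈ {x | (2 * v + 1) * 2 ^ (k - 1 - i) ≤ g x}) hR
  refine ⟨A, hA, fun x => x, LibBHN.id_mem, _, LibBHN.last_mem, fun x => ?_⟩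
  have h1 : ∀ i, i < k → ∀ v < 2 ^ i, (pair x (vec i v) ∈ A ↔
      (2 * v + 1) * 2 ^ (k - 1 - i) ≤ g x) := by
    intro i hi v hv
    rw [hAC]
    constructor
    · rintro ⟨i', hi', v', hv', h2, h3⟩
      have h4 : i = i' := by simpa using congrArg List.length h2
      subst h4
      have h5 := vec_inj hv (Finset.mem_range.1 hv') h2
      subst h5
      exact h3
    · intro h2
      exact ⟨i, Finset.mem_range.2 hi, v, Finset.mem_range.2 hv, rfl, h2⟩
  have h2 : ∀ i ≤ k, tv (fun x => x) A x i = g x / 2 ^ (k - i) := by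
    intro i
    induction i with
    | zero =>
      intro _
      rw [tv, Nat.sub_zero, Nat.div_eq_of_lt (gk x)]
    | succ i ih =>
      intro hi
      have ih' := ih (by omega)
      have h3 := h1 i (by omega) _ (tv_lt (fun x => x) A x i)
      have h4 : k - i = (k - 1 - i) + 1 := by omega
      have h5 : k - (i + 1) = k - 1 - i := by omega
      rw [tv, h5]
      have h6 : g x / 2 ^ (k - 1 - i) / 2 = tv (fun x => x) A x i := by
        rw [ih', h4, pow_succ, Nat.div_div_eq_div_mul]
      rw [← Nat.le_div_iff_mul_le (by positivity)] at h3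
      split_ifs with h7
      · have := h3.1 h7
        omega
      · have : ¬ _ := fun h8 => h7 (h3.2 h8)
        omega
  have h3 : answers (fun x => x) A x k = vec k (g x) := by
    rw [answers_eq, h2 k le_rfl]
    simp
  rw [g3, h3]
  show _ ↔ (pair x (vec k (g x))).getLast? = some true
  rcases k with _ | k
  · have : g x = 0 := by have := gk x; simp at this; exact this
    rw [this]
    simp [pair, vec]
  · rw [vec]
    unfold pair
    rw [← List.append_assoc, List.getLast?_append]
    simp [Nat.odd_iff]

theorem query_subset_adapt (k : ℕ) : PQuery (NEXPLang O) k ⊆ Adapt O := by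
  classical
  rintro L ⟨A, hA, f, hf, G, hG, h⟩
  have hR : NEXP O fun e : Fin 2 → List Bool =>
      (∃ i ∈ Finset.range k, (e 1).length = 0 * (e 1).length + i ∧ f (pair (e 0) (e 1)) ∈ A) ∨
      (∃ w ∈ strs k, w <+: e 1 ∧ pair (e 0) w ∈ G) := by
    refine nx_fin.1 ((NX.finset_exists _ fun i _ => (nx_lin _ _ _ _).and ?_).or
      (NX.finset_exists _ fun w _ => (nx_prefix _ _).and ?_))
    · exact nx_fin.2 (LibBHN.PoracleA_query hf hA)
    · have h2 : NX O fun e : Option (Fin 2) → List Bool => pair (e (some 0)) (e none) ∈ G :=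
        nx_pair_mem (LibBHN.nexp_ptime hG).1 _ _
      exact nx_arg h2 w
  obtain ⟨D, hD, hDC⟩ := rel_of_nexp (C := fun x α =>
      (∃ i ∈ Finset.range k, α.length = 0 * α.length + i ∧ f (pair x α) ∈ A) ∨
      (∃ w ∈ strs k, w <+: α ∧ pair x w ∈ G)) hR
  refine ⟨D, hD, k, fun x => ?_⟩
  have h1 : ∀ α : List Bool, α.length < k → (pair x α ∈ D ↔ f (pair x α) ∈ A) := by
    intro α hα
    rw [hDC]
    constructor
    · rintro (⟨i, -, -, h2⟩ | ⟨w, hw, h2, -⟩)
      · exact h2
      · rw [mem_strs] at hw
        have := h2.length_le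
        omega
    · intro h2
      exact Or.inl ⟨α.length, Finset.mem_range.2 hα, by omega, h2⟩
  have h2 : ∀ i ≤ k, ans D x i = answers f A x i := by
    intro i
    induction i with
    | zero => intro _; rfl
    | succ i ih =>
      intro hi
      rw [ans, LibBHN.answers, ih (by omega)]
      congr 2
      rw [decide_eq_decide]
      exact h1 _ (by rw [length_answers]; omega)
  have hk : k ≤ x.length ^ k + k := Nat.le_add_left _ _
  have h3 := ans_prefix D x hk
  rw [h2 k le_rfl] at h3
  rw [hDC, h]
  constructor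
  · intro h4
    exact Or.inr ⟨_, mem_strs.2 (length_answers f A x k), h3, h4⟩
  · rintro (⟨i, hi, h4, -⟩ | ⟨w, hw, h4, h5⟩)
    · rw [length_ans] at h4
      have := Finset.mem_range.1 hi
      omega
    · rw [mem_strs] at hw
      have h6 : w = answers f A x k := by
        rcases List.prefix_or_prefix_of_prefix h4 h3 with h7 | h7
        · exact h7.eq_of_length (by rw [hw, length_answers])
        · exact (h7.eq_of_length (by rw [hw, length_answers])).symm
      rw [h6] at h5
      exact h5

end Pool.Agent.LibNexp55
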