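import Pool.Agent.LibNexp55.Back
import Pool.Agent.LibNexp55.Diag
import Pool.Agent.LibNexp55.Query

/-!
The difference hierarchy, adaptive queries and advice.
-/

namespace Pool.Agent.LibNexp55

open Function Pool.Agent.LibNexp
open Pool.Agent.LibBHN (PTime FPTime PQuery POracle answers length_answers)

theorem witLang_mem' {O : List Bool → Bool} : WitLang O ∈ NEXPLang O := by
  obtain ⟨c, p, hp⟩ := witLang_mem (O := O)
  refine nexp_iff.2 ⟨fun n => 2 ^ (c * n + c), EP.pow2 (((PolyB.const c).mul PolyB.id).add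
    (PolyB.const c)), p, hp⟩

/-- The main equivalences for the level `m` of the difference hierarchy. -/
theorem levels (O : List Bool → Bool) {m : ℕ} (hm : 1 ≤ m) : List.TFAE [
    ∀ L ∈ BH O m, Lᶜ ∈ BH O m,
    BH O (m + 1) = BH O m,
    POracle (NEXPLang O) = BH O m,
    ∀ L ∈ NEXPLang O, ∃ A : Finset (List Bool), A.card ≤ m ∧
      Lᶜ ∈ WithAdvice (NEXPLang O) {f | ∀ n, f n ∈ A},
    ∀ A : Finset (List Bool), m ≤ A.card →
      ∀ L ∈ NEXPLang O, Lᶜ ∈ WithAdvice (NEXPLang O) {f | ∀ n, f n ∈ A},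
    PPar (NEXPLang O) m = PPar (NEXPLang O) (m + 1),
    PPar (NEXPLang O) m = POracle (NEXPLang O),
    BH O (m + 1) ⊆ PPar (NEXPLang O) m] := by
  tfae_have 1 → 5 := fun h A hA L hL => values_of_closed hm h hL hA
  tfae_have 5 → 4 := fun h L hL => by
    obtain ⟨A, hA⟩ := Infinite.exists_subset_card_eq (List Bool) m
    exact ⟨A, hA.le, h A hA.ge L hL⟩
  tfae_have 4 → 3 := fun h => by
    rw [← adapt_eq]
    exact (adapt_subset_BH h).antisymm BH_subset_adapt
  tfae_have 3 → 7 := fun h => by
    refine subset_antisymm ?_ ?_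
    · rw [← adapt_eq]
      exact par_subset_adapt m
    · rw [h]
      exact BH_subset_par m
  tfae_have 3 → 6 := fun h => by
    refine subset_antisymm ?_ ?_
    · refine subset_trans (par_subset_adapt m) ?_
      rw [adapt_eq, h]
      exact subset_trans (BH_mono (Nat.le_succ m)) (BH_subset_par (m + 1))
    · refine subset_trans (par_subset_adapt (m + 1)) ?_
      rw [adapt_eq, h]
      exact BH_subset_par m
  tfae_have 7 → 8 := fun h => by
    rw [h, ← adapt_eq]
    exact BH_subset_adapt
  tfae_have 6 → 8 := fun h => by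
    rw [h]
    exact BH_subset_par (m + 1)
  tfae_have 8 → 1 := closed_of_par m
  tfae_have 3 → 2 := fun h => by
    refine subset_antisymm ?_ (BH_mono (Nat.le_succ m))
    rw [← h, ← adapt_eq]
    exact BH_subset_adapt
  tfae_have 2 → 1 := fun h L hL => by
    rw [← h]
    exact ⟨Set.univ, univ_mem, L, hL, by rw [Set.compl_eq_univ_sdiff]⟩
  tfae_finish

/-- The main equivalences for `k` adaptive queries. -/
theorem queries (O : List Bool → Bool) {k : ℕ} (hk : 1 ≤ k) : List.TFAE [
    PQuery (NEXPLang O) k = PQuery (NEXPLang O) (k + 1),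
    PQuery (NEXPLang O) k = POracle (NEXPLang O),
    POracle (NEXPLang O) = BH O (2 ^ k - 1),
    BH O (2 ^ k) ⊆ PQuery (NEXPLang O) k,
    ∀ L ∈ BH O (2 ^ k - 1), Lᶜ ∈ BH O (2 ^ k - 1)] := by
  have h2k : 2 ≤ 2 ^ k := by
    calc 2 = 2 ^ 1 := by norm_num
      _ ≤ 2 ^ k := Nat.pow_le_pow_right (by norm_num) hk
  have hm : 1 ≤ 2 ^ k - 1 := by omega
  have hlev := levels O hm
  tfae_have 1 → 4 := fun h => by
    rw [h]
    refine subset_trans (BH_mono ?_) (BH_subset_query (k + 1))
    rw [pow_succ]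
    omega
  tfae_have 4 → 5 := closed_of_query k
  tfae_have 5 → 3 := (hlev.out 0 2).1
  tfae_have 3 → 1 := fun h => by
    refine subset_antisymm ?_ ?_
    · refine subset_trans (query_subset_adapt k) ?_
      rw [adapt_eq, h]
      refine subset_trans (BH_mono ?_) (BH_subset_query (k + 1))
      rw [pow_succ]
      omega
    · refine subset_trans (query_subset_adapt (k + 1)) ?_
      rw [adapt_eq, h]
      exact BH_subset_query k
  tfae_have 3 → 2 := fun h => by
    refine subset_antisymm ?_ ?_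
    · rw [← adapt_eq]
      exact query_subset_adapt k
    · rw [h]
      exact BH_subset_query k
  tfae_have 2 → 4 := fun h => by
    rw [h, ← adapt_eq]
    exact BH_subset_adapt
  tfae_finish

/-- For every `m` there is an oracle with exactly `m` levels. -/
theorem exact_levels {m : ℕ} (hm : 1 ≤ m) : ∃ O : List Bool → Bool,
    POracle (NEXPLang O) = BH O m ∧ ∀ i < m, BH O i ≠ BH O (i + 1) := by
  obtain ⟨O, hO⟩ := exact_values hm
  refine ⟨O, ((levels O hm).out 4 2).1 fun A hA => (hO A).1 hA, fun i hi h => ?_⟩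
  rcases Nat.eq_zero_or_pos i with rfl | hpos
  · have h1 : (Set.univ : Lang) ∈ BH O 0 := by
      rw [h, BH_one]
      exact univ_mem
    have h2 : (Set.univ : Lang) = ∅ := h1
    have h3 : ([] : List Bool) ∈ (Set.univ : Lang) := trivial
    rw [h2] at h3
    exact h3
  · obtain ⟨A, hA⟩ := Infinite.exists_subset_card_eq (List Bool) i
    have h5 : ∀ A : Finset (List Bool), i ≤ A.card →
      ∀ L ∈ NEXPLang O, Lᶜ ∈ WithAdvice (NEXPLang O) {f | ∀ n, f n ∈ A} :=
      ((levels O hpos).out 1 4).1 h.symm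
    exact (hO A).2 (by omega) (h5 A hA.ge _ witLang_mem')

end Pool.Agent.LibNexp55
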