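import Pool.Agent.LibBHN.PoracleA
import Pool.Agent.LibBHN.PoracleB
import Pool.Agent.LibNexp55.Adapt

/-!
A bounded number of adaptive queries: changes of mind.
-/

namespace Pool.Agent.LibNexp55

open Function Pool.Agent.LibNexp
open Pool.Agent.LibBHN (PTime FPTime PQuery POracle answers length_answers)

variable {O : List Bool → Bool}

theorem ans_eq (C : Lang) (x : List Bool) (i : ℕ) : LibBHN.ans C x i = ans C x i := by
  induction i with
  | zero => rfl
  | succ i ih => rw [LibBHN.ans, ans, ih]

theorem adapt_eq : Adapt O = POracle (NEXPLang O) := by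
  have h : Adapt O = LibBHN.PNEXP O := by
    unfold Adapt LibBHN.PNEXP
    simp only [ans_eq]
  rw [h]
  exact LibBHN.pnexp_subset.antisymm LibBHN.poracle_subset

/-- The binary representation of `v` with `k` letters, most significant first. -/
def vec : ℕ → ℕ → List Bool
  | 0, _ => []
  | k + 1, v => vec k (v / 2) ++ [decide (v % 2 = 1)]

@[simp] theorem length_vec (k v : ℕ) : (vec k v).length = k := by
  induction k generalizing v with
  | zero => rfl
  | succ k ih => rw [vec, List.length_append, ih]; rfl

variable (f : List Bool → List Bool) (A G : Lang) (x : List Bool)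

open Classical in
/-- The number represented by the true answers. -/
noncomputable def tv : ℕ → ℕ
  | 0 => 0
  | k + 1 => 2 * tv k + if f (pair x (vec k (tv k))) ∈ A then 1 else 0

theorem answers_eq (k : ℕ) : answers f A x k = vec k (tv f A x k) := by
  classical
  induction k with
  | zero => rfl
  | succ k ih =>
    rw [LibBHN.answers, ih, vec, tv]
    have h1 : (2 * tv f A x k + if f (pair x (vec k (tv f A x k))) ∈ A then 1 else 0) / 2 =
        tv f A x k := by
      split_ifs <;> omega
    rw [h1]
    congr 2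
    rw [decide_eq_decide]
    split_ifs with h
    · simp [h]
    · simp [h]

theorem tv_lt (k : ℕ) : tv f A x k < 2 ^ k := by
  induction k with
  | zero => simp [tv]
  | succ k ih =>
    rw [tv, pow_succ]
    split_ifs <;> omega

/-- The positive answers in `v` are correct. -/
def Valid : ℕ → ℕ → Prop
  | 0, v => v = 0
  | k + 1, v => Valid k (v / 2) ∧ (v % 2 = 1 → f (pair x (vec k (v / 2))) ∈ A)

theorem valid_zero (k : ℕ) : Valid f A x k 0 := by
  induction k with
  | zero => rfl
  | succ k ih => exact ⟨by simpa using ih, fun h => absurd h (by simp)⟩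

theorem valid_tv (k : ℕ) : Valid f A x k (tv f A x k) := by
  classical
  induction k with
  | zero => rfl
  | succ k ih =>
    have h1 : tv f A x (k + 1) / 2 = tv f A x k := by
      rw [tv]
      split_ifs <;> omega
    refine ⟨by rw [h1]; exact ih, fun h => ?_⟩
    rw [h1]
    rw [tv] at h
    split_ifs at h with h2
    · exact h2
    · omega

theorem valid_le {k v : ℕ} (h : Valid f A x k v) : v ≤ tv f A x k := by
  classical
  induction k generalizing v with
  | zero =>
    change v = 0 at h
    omega
  | succ k ih =>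
    obtain ⟨h1, h2⟩ := h
    have h3 := ih h1
    rw [tv]
    rcases Nat.lt_or_ge (v / 2) (tv f A x k) with h4 | h4
    · omega
    · have h5 : v / 2 = tv f A x k := le_antisymm h3 h4
      rw [h5] at h2
      split_ifs with h6
      · omega
      · have : v % 2 ≠ 1 := fun h => h6 (h2 h)
        omega

/-- A chain of valid guesses of the answers, starting with negative answers only, with `j`
changes of the outcome. -/
def Chain (k j : ℕ) : Prop :=
  ∃ l : Fin (j + 1) → Fin (2 ^ k), StrictMono l ∧ ((l 0 : Fin (2 ^ k)) : ℕ) = 0 ∧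
    (∀ i, Valid f A x k (l i)) ∧ ∀ i : Fin j,
      (pair x (vec k (l i.castSucc)) ∈ G ∧ pair x (vec k (l i.succ)) ∈ Gᶜ) ∨
      (pair x (vec k (l i.castSucc)) ∈ Gᶜ ∧ pair x (vec k (l i.succ)) ∈ G)

theorem chain_zero (k : ℕ) : Chain f A G x k 0 := by
  refine ⟨fun _ => ⟨0, by positivity⟩, ?_, rfl, fun _ => valid_zero f A x k, fun i => i.elim0⟩
  intro i i' h
  have := i.2
  have := i'.2
  have : (i : ℕ) < i' := h
  omega

variable {f A G x}

theorem chain_anti {k j : ℕ} (h : Chain f A G x k (j + 1)) : Chain f A G x k j := by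
  obtain ⟨l, h1, h2, h3, h4⟩ := h
  refine ⟨fun i => l i.castSucc, fun i i' hi => h1 (by simpa using hi), h2, fun i => h3 _,
    fun i => ?_⟩
  exact h4 i.castSucc

theorem chain_top {k : ℕ} : ¬ Chain f A G x k (2 ^ k) := by
  rintro ⟨l, h1, -⟩
  have := Fintype.card_le_of_injective l h1.injective
  simp at this

theorem chain_parity {k j : ℕ} {l : Fin (j + 1) → Fin (2 ^ k)} (h2 : (l 0 : ℕ) = 0)
    (h4 : ∀ i : Fin j, (pair x (vec k (l i.castSucc)) ∈ G ∧ pair x (vec k (l i.succ)) ∈ Gᶜ) ∨
      (pair x (vec k (l i.castSucc)) ∈ Gᶜ ∧ pair x (vec k (l i.succ)) ∈ G)) :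
    ∀ i : Fin (j + 1), ((pair x (vec k (l i)) ∈ G ↔ pair x (vec k 0) ∈ G) ↔ Even (i : ℕ)) := by
  intro i
  refine Fin.induction ?_ (fun i ih => ?_) i
  · rw [h2]
    simp
  · have h5 : pair x (vec k (l i.succ)) ∈ G ↔ ¬ pair x (vec k (l i.castSucc)) ∈ G := by
      rcases h4 i with ⟨h5, h6⟩ | ⟨h5, h6⟩
      · exact ⟨fun h => absurd h h6, fun h => absurd h5 h⟩
      · exact ⟨fun _ => h5, fun _ => h6⟩
    rw [Fin.val_castSucc] at ih
    rw [h5, Fin.val_succ, Nat.even_add_one, ← ih]
    tauto

theorem chain_value {k j : ℕ} (h : Chain f A G x k j) (h' : ¬ Chain f A G x k (j + 1)) :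
    (pair x (answers f A x k) ∈ G ↔ pair x (vec k 0) ∈ G) ↔ Even j := by
  obtain ⟨l, h1, h2, h3, h4⟩ := h
  have hpar := chain_parity h2 h4 (Fin.last j)
  rw [Fin.val_last] at hpar
  rw [← hpar, answers_eq]
  set t : Fin (2 ^ k) := ⟨tv f A x k, tv_lt f A x k⟩ with ht
  have hle : l (Fin.last j) ≤ t := valid_le f A x (h3 (Fin.last j))
  by_cases hcase : pair x (vec k (l (Fin.last j))) ∈ G ↔ pair x (vec k t) ∈ G
  · rw [hcase]
  · exfalso
    have hne : l (Fin.last j) ≠ t := by
      intro h
      rw [h] at hcase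
      exact hcase Iff.rfl
    have hlt : l (Fin.last j) < t := lt_of_le_of_ne hle hne
    refine h' ⟨Fin.snoc (α := fun _ => Fin (2 ^ k)) l t, ?_, ?_, ?_, ?_⟩
    · intro i i'
      refine Fin.lastCases ?_ (fun i => ?_) i <;> refine Fin.lastCases ?_ (fun i' => ?_) i'
      · intro h; exact absurd h (lt_irrefl _)
      · intro h
        exact absurd h (not_lt.2 (Fin.le_last _))
      · intro _
        simp only [Fin.snoc_last, Fin.snoc_castSucc]
        exact lt_of_le_of_lt (h1.monotone (Fin.le_last i)) hlt
      · intro h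
        simp only [Fin.snoc_castSucc]
        exact h1 (by simpa using h)
    · have : (0 : Fin (j + 1 + 1)) = Fin.castSucc 0 := rfl
      rw [this, Fin.snoc_castSucc]
      exact h2
    · intro i
      refine Fin.lastCases ?_ (fun i => ?_) i
      · rw [Fin.snoc_last]
        exact valid_tv f A x k
      · rw [Fin.snoc_castSucc]
        exact h3 i
    · intro i
      refine Fin.lastCases ?_ (fun i => ?_) i
      · rw [Fin.snoc_castSucc, Fin.succ_last, Fin.snoc_last]
        by_cases h5 : pair x (vec k (l (Fin.last j))) ∈ G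
        · left
          exact ⟨h5, fun h6 => hcase ⟨fun _ => h6, fun _ => h5⟩⟩
        · right
          refine ⟨h5, ?_⟩
          by_contra h6
          exact hcase ⟨fun h => absurd h h5, fun h => absurd h h6⟩
      · rw [Fin.snoc_castSucc, Fin.succ_castSucc, Fin.snoc_castSucc]
        exact h4 i

theorem nx_arg {ι : Type} [Finite ι] {R : (Option ι → List Bool) → Prop} (h : NX O R)
    (c : List Bool) : NX O fun e : ι → List Bool => R (ext e c) := by
  have := Fintype.ofFinite ι
  refine (NX.exists ((nx_const c none).and h) (g := fun _ => c.length) (PolyB.const _)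
    ?_).congr fun e => ?_
  · rintro e z ⟨h, -⟩
    change z = c at h
    rw [h]
  · constructor
    · rintro ⟨z, h1, h2⟩
      change z = c at h1
      subst h1
      exact h2
    · intro h
      exact ⟨c, rfl, h⟩

theorem nx_valid (hA : A ∈ NEXPLang O) (hf : f ∈ FPTime) {ι : Type} [Finite ι] (j : ι)
    (k v : ℕ) : NX O fun e : ι → List Bool => Valid f A (e j) k v := by
  induction k generalizing v with
  | zero => exact nx_prop _
  | succ k ih =>
    refine (ih _).and (NX.imp _ fun _ => ?_)
    have h1 : NX O fun e : Option ι → List Bool => f (pair (e (some j)) (e none)) ∈ A := by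
      refine (nx_of (LibBHN.PoracleA_query hf hA) ![some j, none]).congr fun e => ?_
      simp
    exact nx_arg h1 _

theorem nx_chain (hA : A ∈ NEXPLang O) (hf : f ∈ FPTime) (hG : G ∈ PTime) {ι : Type} [Finite ι]
    (j : ι) (k n : ℕ) : NX O fun e : ι → List Bool => Chain f A G (e j) k n := by
  have h1 : ∀ (G' : Lang), G' ∈ NEXPLang O → ∀ c, NX O fun e : ι → List Bool =>
      pair (e j) c ∈ G' := by
    intro G' hG' c
    have h2 : NX O fun e : Option ι → List Bool => pair (e (some j)) (e none) ∈ G' :=
      nx_pair_mem hG' _ _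
    exact nx_arg h2 c
  obtain ⟨g1, g2⟩ := LibBHN.nexp_ptime (O := O) hG
  unfold Chain
  exact NX.fin_exists fun l => (nx_prop _).and ((nx_prop _).and ((NX.fin_forall fun i =>
    nx_valid hA hf _ _ _).and (NX.fin_forall fun i =>
      ((h1 _ g1 _).and (h1 _ g2 _)).or ((h1 _ g2 _).and (h1 _ g1 _)))))

end Pool.Agent.LibNexp55
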