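import Pool.Agent.LibNexp55.Mind

/-!
A bounded number of parallel queries and the difference hierarchy.
-/

namespace Pool.Agent.LibNexp55

open Function Pool.Agent.LibNexp
open Pool.Agent.LibBHN (PTime FPTime POracle Mach Cmd)

variable {O : List Bool → Bool}

/-! ### Changes of mind along an order -/

section Abstract

variable {P : Type} [PartialOrder P]

/-- A chain of valid elements from `a` with `j` changes of the outcome. -/
def MChain (a : P) (valid out nout : P → Prop) (j : ℕ) : Prop :=
  ∃ l : Fin (j + 1) → P, StrictMono l ∧ l 0 = a ∧ (∀ i, valid (l i)) ∧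
    ∀ i : Fin j, (out (l i.castSucc) ∧ nout (l i.succ)) ∨ (nout (l i.castSucc) ∧ out (l i.succ))

variable {a : P} {valid out nout : P → Prop}

theorem mchain_zero (h : valid a) : MChain a valid out nout 0 := by
  refine ⟨fun _ => a, ?_, rfl, fun _ => h, fun i => i.elim0⟩
  intro i i' h
  have := i.2
  have := i'.2
  have : (i : ℕ) < i' := h
  omega

theorem mchain_anti {j : ℕ} (h : MChain a valid out nout (j + 1)) : MChain a valid out nout j := by
  obtain ⟨l, h1, h2, h3, h4⟩ := h
  exact ⟨fun i => l i.castSucc, fun i i' hi => h1 (by simpa using hi), h2, fun i => h3 _,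
    fun i => h4 i.castSucc⟩

theorem mchain_value (hn : ∀ p, nout p ↔ ¬ out p) {t : P} (ht : valid t)
    (htop : ∀ p, valid p → p ≤ t) {j : ℕ} (h : MChain a valid out nout j)
    (h' : ¬ MChain a valid out nout (j + 1)) : (out t ↔ out a) ↔ Even j := by
  classical
  obtain ⟨l, h1, h2, h3, h4⟩ := h
  have hpar : ∀ i : Fin (j + 1), ((out (l i) ↔ out a) ↔ Even (i : ℕ)) := by
    intro i
    refine Fin.induction ?_ (fun i ih => ?_) i
    · rw [h2]
      simp
    · have h5 : out (l i.succ) ↔ ¬ out (l i.castSucc) := by
        rcases h4 i with ⟨h5, h6⟩ | ⟨h5, h6⟩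
        · rw [hn] at h6
          tauto
        · rw [hn] at h5
          tauto
      rw [Fin.val_castSucc] at ih
      rw [h5, Fin.val_succ, Nat.even_add_one, ← ih]
      tauto
  have hlast := hpar (Fin.last j)
  rw [Fin.val_last] at hlast
  rw [← hlast]
  have hle : l (Fin.last j) ≤ t := htop _ (h3 _)
  by_cases hcase : out (l (Fin.last j)) ↔ out t
  · rw [hcase]
  · exfalso
    have hne : l (Fin.last j) ≠ t := by
      intro h
      rw [h] at hcase
      exact hcase Iff.rfl
    have hlt : l (Fin.last j) < t := lt_of_le_of_ne hle hne
    refine h' ⟨Fin.snoc (α := fun _ => P) l t, ?_, ?_, ?_, ?_⟩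
    · intro i i'
      refine Fin.lastCases ?_ (fun i => ?_) i <;> refine Fin.lastCases ?_ (fun i' => ?_) i'
      · intro h; exact absurd h (lt_irrefl _)
      · intro h
        exact absurd h (not_lt.2 (Fin.le_last _))
      · intro _
        simp only [Fin.snoc_last, Fin.snoc_castSucc]
        exact lt_of_le_of_lt (h1.monotone (Fin.le_last i)) hlt
      · intro h
        simp only [Fin.snoc_castSucc]
        exact h1 (by simpa using h)
    · have : (0 : Fin (j + 1 + 1)) = Fin.castSucc 0 := rfl
      rw [this, Fin.snoc_castSucc]
      exact h2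
    · intro i
      refine Fin.lastCases ?_ (fun i => ?_) i
      · rw [Fin.snoc_last]
        exact ht
      · rw [Fin.snoc_castSucc]
        exact h3 i
    · intro i
      refine Fin.lastCases ?_ (fun i => ?_) i
      · rw [Fin.snoc_castSucc, Fin.succ_last, Fin.snoc_last]
        by_cases h5 : out (l (Fin.last j))
        · left
          refine ⟨h5, (hn _).2 fun h6 => hcase ⟨fun _ => h6, fun _ => h5⟩⟩
        · right
          refine ⟨(hn _).2 h5, ?_⟩
          by_contra h6
          exact hcase ⟨fun h => absurd h h5, fun h => absurd h h6⟩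
      · rw [Fin.snoc_castSucc, Fin.succ_castSucc, Fin.snoc_castSucc]
        exact h4 i

end Abstract

/-! ### Parallel queries -/

open Classical in
/-- The answers to the first parallel queries to `A`: the query number `i` on the input `x` is
`f ⟨x, 1^i⟩`. -/
noncomputable def parAnswers (f : List Bool → List Bool) (A : Lang) (x : List Bool) :
    ℕ → List Bool
  | 0 => []
  | i + 1 => parAnswers f A x i ++ [decide (f (pair x (List.replicate i true)) ∈ A)]

/-- Polynomial time with at most `k` parallel queries to a language of the class `𝒞`. -/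
def PPar (𝒞 : Set Lang) (k : ℕ) : Set Lang :=
  {L | ∃ A ∈ 𝒞, ∃ f ∈ FPTime, ∃ G ∈ PTime, ∀ x, x ∈ L ↔ pair x (parAnswers f A x k) ∈ G}

theorem length_parAnswers (f : List Bool → List Bool) (A : Lang) (x : List Bool) (i : ℕ) :
    (parAnswers f A x i).length = i := by
  induction i with
  | zero => rfl
  | succ i ih => rw [parAnswers, List.length_append, ih]; rfl

variable {k : ℕ}

open Classical in
theorem parAnswers_eq (f : List Bool → List Bool) (A : Lang) (x : List Bool) (k : ℕ) :
    parAnswers f A x k =
      List.ofFn fun i : Fin k => decide (f (pair x (List.replicate (i : ℕ) true)) ∈ A) := by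
  induction k with
  | zero => simp [parAnswers]
  | succ k ih =>
    rw [parAnswers, ih, List.ofFn_succ_last]
    simp

/-- The positive answers of a pattern are correct. -/
def PVal (f : List Bool → List Bool) (A : Lang) (x : List Bool) (p : Fin k → Bool) : Prop :=
  ∀ i : Fin k, p i = true → f (pair x (List.replicate (i : ℕ) true)) ∈ A

/-- Chains of patterns. -/
def PChain (f : List Bool → List Bool) (A G : Lang) (x : List Bool) (k j : ℕ) : Prop :=
  MChain (P := Fin k → Bool) (fun _ => false) (PVal f A x)
    (fun p => pair x (List.ofFn p) ∈ G) (fun p => pair x (List.ofFn p) ∈ Gᶜ) j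

variable {f : List Bool → List Bool} {A G : Lang} {x : List Bool}

theorem pchain_zero : PChain f A G x k 0 := mchain_zero fun i h => by simp at h

theorem pchain_top : ¬ PChain f A G x k (k + 1) := by
  rintro ⟨l, h1, -⟩
  have hmono : StrictMono fun t => (Finset.univ.filter fun i => l t i = true).card := by
    intro t t' h
    refine Finset.card_lt_card ?_
    have h2 := h1 h
    rw [Finset.ssubset_iff_subset_ne]
    refine ⟨fun i hi => ?_, fun h3 => ?_⟩
    · simp only [Finset.mem_filter, Finset.mem_univ, true_and] at hi ⊢
      have h4 := h2.le i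
      rw [hi] at h4
      exact top_le_iff.1 h4
    · refine h2.ne (funext fun i => ?_)
      have h4 := Finset.ext_iff.1 h3 i
      simp only [Finset.mem_filter, Finset.mem_univ, true_and] at h4
      exact Bool.eq_iff_iff.2 h4
  have h2 : ∀ t : Fin (k + 1 + 1), (t : ℕ) ≤ (Finset.univ.filter fun i => l t i = true).card := by
    intro t
    refine Fin.induction (Nat.zero_le _) (fun t ih => ?_) t
    have h3 := hmono (Fin.castSucc_lt_succ (i := t))
    simp only at h3
    rw [Fin.val_castSucc] at ih
    rw [Fin.val_succ]
    omega
  have h3 := h2 (Fin.last _)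
  have h4 := Finset.card_filter_le (Finset.univ : Finset (Fin k)) fun i => l (Fin.last _) i = true
  rw [Finset.card_univ, Fintype.card_fin] at h4
  rw [Fin.val_last] at h3
  omega

theorem pchain_value {j : ℕ} (h : PChain f A G x k j) (h' : ¬ PChain f A G x k (j + 1)) :
    (pair x (parAnswers f A x k) ∈ G ↔ pair x (List.ofFn fun _ : Fin k => false) ∈ G) ↔
      Even j := by
  classical
  rw [parAnswers_eq]
  refine mchain_value (t := fun i : Fin k =>
    decide (f (pair x (List.replicate (i : ℕ) true)) ∈ A)) (fun p => Iff.rfl) ?_ ?_ h h'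
  · intro i hi
    simpa using hi
  · intro p hp i
    by_cases h1 : p i = true
    · have := hp i h1
      simp [h1, this]
    · have : p i = false := by simpa using h1
      rw [this]
      exact Bool.false_le _

theorem nx_pchain (hA : A ∈ NEXPLang O) (hf : f ∈ FPTime) (hG : G ∈ PTime) {ι : Type} [Finite ι]
    (j : ι) (k n : ℕ) : NX O fun e : ι → List Bool => PChain f A G (e j) k n := by
  have h1 : ∀ (G' : Lang), G' ∈ NEXPLang O → ∀ c, NX O fun e : ι → List Bool =>
      pair (e j) c ∈ G' := by
    intro G' hG' c
    have h2 : NX O fun e : Option ι → List Bool => pair (e (some j)) (e none) ∈ G' :=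
      nx_pair_mem hG' _ _
    exact nx_arg h2 c
  have h2 : ∀ c, NX O fun e : ι → List Bool => f (pair (e j) c) ∈ A := by
    intro c
    have h2 : NX O fun e : Option ι → List Bool => f (pair (e (some j)) (e none)) ∈ A := by
      refine (nx_of (LibBHN.PoracleA_query hf hA) ![some j, none]).congr fun e => ?_
      simp
    exact nx_arg h2 c
  obtain ⟨g1, g2⟩ := LibBHN.nexp_ptime (O := O) hG
  unfold PChain MChain PVal
  exact NX.fin_exists fun l => (nx_prop _).and ((nx_prop _).and ((NX.fin_forall fun i =>
    NX.fin_forall fun t => NX.imp _ fun _ => h2 _).and (NX.fin_forall fun i =>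
      ((h1 _ g1 _).and (h1 _ g2 _)).or ((h1 _ g2 _).and (h1 _ g1 _)))))

/-! ### The level `k` is decided by `k` parallel queries -/

/-- The machine computing the parity of the number of ones. -/
def parM : Mach := [.pop false 0 1 2, .pop false 1 0 3, .halt true, .halt false]

theorem parM_iter (x : List Bool) (q : ℕ) (hq : q ≤ 1) :
    (parM.next)^[x.length + 1] (q, x, []) =
      (if Even (q + x.count true) then 2 else 3, [], []) := by
  induction x generalizing q with
  | nil =>
    interval_cases q <;> rfl
  | cons b x ih =>
    rw [List.length_cons, Function.iterate_succ_apply]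
    have h1 : parM.next (q, b :: x, []) = (cond b (1 - q) q, x, []) := by
      interval_cases q <;> cases b <;> rfl
    rw [h1, ih _ (by cases b <;> simp [hq])]
    cases b
    · simp
    · rw [List.count_cons_self]
      interval_cases q
      · simp [Nat.even_add_one, add_comm]
      · simp only [cond_true, Nat.sub_self, zero_add]
        congr 1
        have h5 : Even (1 + (List.count true x + 1)) ↔ Even (List.count true x) := by
          rw [show 1 + (List.count true x + 1) = List.count true x + 2 by ring, Nat.even_add]
          simp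
        simp only [h5]

theorem parity_mem : {x : List Bool | Even (x.count true)} ∈ PTime := by
  refine ⟨parM, 1, fun x => ⟨x.length + 1, by simp, decide (Even (x.count true)), ?_, by simp⟩⟩
  have h : parM.run x (x.length + 1) = (if Even (0 + x.count true) then 2 else 3, [], []) :=
    parM_iter x 0 (by omega)
  rw [h, zero_add]
  by_cases h1 : Even (x.count true)
  · simp only [if_pos h1, decide_eq_true h1]
    rfl
  · simp only [if_neg h1, decide_eq_false h1]
    rfl

theorem count_pair (x y : List Bool) :
    (pair x y).count true = 2 * x.count true + 1 + y.count true := by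
  have h : ∀ x : List Bool, (x.flatMap fun b => [b, b]).count true = 2 * x.count true := by
    intro x
    induction x with
    | nil => rfl
    | cons b x ih =>
      rw [List.flatMap_cons, List.count_append, ih]
      cases b
      · simp
      · simp; ring
  unfold pair
  rw [List.count_append, List.count_append, h]
  simp

theorem BH_subset_par (k : ℕ) : BH O k ⊆ PPar (NEXPLang O) k := by
  classical
  intro L hL
  obtain ⟨g, g1, g2, g3⟩ := mem_BH_iff.1 hL
  have hR : NEXP O fun e : Fin 2 → List Bool => ∃ i ∈ Finset.range k,
      e 1 = List.replicate i true ∧ e 0 ∈ {x | i + 1 ≤ g x} :=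
    nx_fin.1 (NX.finset_exists _ fun i _ => (nx_const _ _).and (nx_mem (g2 _) _))
  obtain ⟨A, hA, hAC⟩ := rel_of_nexp (C := fun x α => ∃ i ∈ Finset.range k,
      α = List.replicate i true ∧ x ∈ {x | i + 1 ≤ g x}) hR
  refine ⟨A, hA, fun x => x, LibBHN.id_mem, _, parity_mem, fun x => ?_⟩
  have h1 : ∀ i ≤ k, (parAnswers (fun x => x) A x i).count true = min i (g x) := by
    intro i
    induction i with
    | zero => intro _; simp [parAnswers]
    | succ i ih =>
      intro hi
      rw [parAnswers, List.count_append, ih (by omega)]
      have h2 : pair x (List.replicate i true) ∈ A ↔ i + 1 ≤ g x := by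
        rw [hAC]
        constructor
        · rintro ⟨i', hi', h3, h4⟩
          have h5 : i = i' := by simpa using congrArg List.length h3
          rw [h5]
          exact h4
        · intro h3
          exact ⟨i, Finset.mem_range.2 (by omega), rfl, h3⟩
      by_cases h3 : i + 1 ≤ g x
      · rw [decide_eq_true (h2.2 h3)]
        simp
        omega
      · rw [decide_eq_false fun h => h3 (h2.1 h)]
        simp
        omega
  have h2 := h1 k le_rfl
  rw [min_eq_right (g1 x)] at h2
  rw [g3]
  show _ ↔ Even ((pair x (parAnswers (fun x => x) A x k)).count true)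
  rw [count_pair, h2, ← Nat.not_even_iff_odd, Nat.even_add, Nat.even_add_one]
  simp

theorem par_subset_adapt (k : ℕ) : PPar (NEXPLang O) k ⊆ Adapt O := by
  classical
  rintro L ⟨A, hA, f, hf, G, hG, h⟩
  have hR : NEXP O fun e : Fin 2 → List Bool =>
      (∃ i ∈ Finset.range k, (e 1).length = 0 * (e 1).length + i ∧
        f (pair (e 0) (List.replicate i true)) ∈ A) ∨
      (∃ w ∈ strs k, w <+: e 1 ∧ pair (e 0) w ∈ G) := by
    refine nx_fin.1 ((NX.finset_exists _ fun i _ => (nx_lin _ _ _ _).and ?_).or
      (NX.finset_exists _ fun w _ => (nx_prefix _ _).and ?_))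
    · have h2 : NX O fun e : Option (Fin 2) → List Bool =>
          f (pair (e (some 0)) (e none)) ∈ A := by
        refine (nx_of (LibBHN.PoracleA_query hf hA) ![some 0, none]).congr fun e => ?_
        simp
      exact nx_arg h2 _
    · have h2 : NX O fun e : Option (Fin 2) → List Bool => pair (e (some 0)) (e none) ∈ G :=
        nx_pair_mem (LibBHN.nexp_ptime hG).1 _ _
      exact nx_arg h2 w
  obtain ⟨D, hD, hDC⟩ := rel_of_nexp (C := fun x α =>
      (∃ i ∈ Finset.range k, α.length = 0 * α.length + i ∧
        f (pair x (List.replicate i true)) ∈ A) ∨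
      (∃ w ∈ strs k, w <+: α ∧ pair x w ∈ G)) hR
  refine ⟨D, hD, k, fun x => ?_⟩
  have h1 : ∀ α : List Bool, α.length < k →
      (pair x α ∈ D ↔ f (pair x (List.replicate α.length true)) ∈ A) := by
    intro α hα
    rw [hDC]
    constructor
    · rintro (⟨i, -, h1, h2⟩ | ⟨w, hw, h2, -⟩)
      · have : α.length = i := by omega
        rw [this]
        exact h2
      · rw [mem_strs] at hw
        have := h2.length_le
        omega
    · intro h2
      exact Or.inl ⟨α.length, Finset.mem_range.2 hα, by omega, h2⟩
  have h2 : ∀ i ≤ k, ans D x i = parAnswers f A x i := by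
    intro i
    induction i with
    | zero => intro _; rfl
    | succ i ih =>
      intro hi
      rw [ans, parAnswers, ih (by omega)]
      congr 2
      rw [decide_eq_decide, h1 _ (by rw [length_parAnswers]; omega), length_parAnswers]
  have hk : k ≤ x.length ^ k + k := Nat.le_add_left _ _
  have h3 := ans_prefix D x hk
  rw [h2 k le_rfl] at h3
  rw [hDC, h]
  constructor
  · intro h4
    exact Or.inr ⟨_, mem_strs.2 (length_parAnswers f A x k), h3, h4⟩
  · rintro (⟨i, hi, h4, -⟩ | ⟨w, hw, h4, h5⟩)
    · rw [length_ans] at h4
      have := Finset.mem_range.1 hi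
      omega
    · rw [mem_strs] at hw
      have h6 : w = parAnswers f A x k := by
        rcases List.prefix_or_prefix_of_prefix h4 h3 with h7 | h7
        · exact h7.eq_of_length (by rw [hw, length_parAnswers])
        · exact (h7.eq_of_length (by rw [hw, length_parAnswers])).symm
      rw [h6] at h5
      exact h5

end Pool.Agent.LibNexp55
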