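import Pool.Agent.LibNexp.Values
import Pool.Agent.LibNexp55.Ctx
import Pool.Agent.LibNexp55.Forall

/-!
Quantifiers over strings, and over tuples of strings, of the length of a variable.
-/

namespace Pool.Agent.LibNexp55

open Function Pool.Agent.LibNexp

variable {O : List Bool → Bool}

theorem nx_len {ι : Type} [Finite ι] (i j : ι) :
    NX O fun e : ι → List Bool => (e i).length = (e j).length := by
  refine (nx_of (nexp_len (O := O) 1 1 0 0) ![i, j]).congr fun e => ?_
  simp
  omega

theorem nx_eq {ι : Type} [Finite ι] (i j : ι) : NX O fun e : ι → List Bool => e i = e j := by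
  have h : NEXP O fun e : Fin 2 → List Bool => ∃ z, app e z 2 = [] ∧
      app e z 1 = app e z 0 ++ app e z 2 := by
    refine NEXP.exists (R := fun e : Fin 3 → List Bool => e 2 = [] ∧ e 1 = e 0 ++ e 2)
      ((nexp_const [] 2).and (((nexp_cat (O := O)).reindex ![0, 2, 1]).congr fun e => ?_))
      (g := fun n => n) PolyB.id ?_
    · simp
    · rintro e z ⟨h, -⟩
      simp only [(app2 e z).2.2] at h
      rw [h]
      simp
  refine (nx_of h ![j, i]).congr fun e => ?_
  simp only [fun z => (app2 (fun k => e (![j, i] k)) z).1, fun z => (app2 (fun k => e (![j, i] k)) z).2.1,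
    fun z => (app2 (fun k => e (![j, i] k)) z).2.2]
  simp

theorem NX.all1 {ι : Type} {R : (Option ι → List Bool) → Prop} (h : NX O R) (j : ι) :
    NX O fun e : ι → List Bool => ∀ z : List Bool, z.length = (e j).length → R (ext e z) := by
  obtain ⟨l, v, hv⟩ := h
  have : Finite (Option ι) := Finite.of_equiv _ v.symm
  have : Finite ι := Finite.of_injective (some : ι → Option ι) (Option.some_injective _)
  obtain ⟨k, ⟨u⟩⟩ := Finite.exists_equiv_fin ι
  refine ⟨k, u, ?_⟩
  set f : Fin l → Fin (k + 1) := fun j => (v.symm j).elim (Fin.last k) fun i => (u i).castSucc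
    with hf
  have h1 := hv.reindex f
  have key : ∀ (e : Fin k → List Bool) (z : List Bool),
      (fun j => app e z (f j)) ∘ v = ext (e ∘ u) z := by
    intro e z
    funext o
    cases o with
    | none => simp [hf, app, ext]
    | some i => simp [hf, app, ext]
  refine (nexp_forall h1 (u j)).congr fun e => ?_
  simp only [key]
  exact Iff.rfl

theorem NX.ex1 {ι : Type} {R : (Option ι → List Bool) → Prop} (h : NX O R) (j : ι) :
    NX O fun e : ι → List Bool => ∃ z : List Bool, z.length = (e j).length ∧ R (ext e z) := by
  have h' := h
  obtain ⟨l, v, hv⟩ := h'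
  have : Finite (Option ι) := Finite.of_equiv _ v.symm
  have : Finite ι := Finite.of_injective (some : ι → Option ι) (Option.some_injective _)
  have := Fintype.ofFinite ι
  refine (NX.exists ((nx_len none (some j)).and h) (g := fun n => n) PolyB.id ?_).congr
    fun e => Iff.rfl
  rintro e z ⟨h1, -⟩
  change z.length = (e j).length at h1
  rw [h1]
  exact Finset.single_le_sum (f := fun i => (e i).length) (fun _ _ => Nat.zero_le _)
    (Finset.mem_univ _)

/-- Split off the last variable of a tuple. -/
def splitLast {ι : Type} {m : ℕ} : ι ⊕ Fin (m + 1) → Option (ι ⊕ Fin m) :=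
  Sum.elim (fun i => some (Sum.inl i)) (Fin.lastCases none fun i => some (Sum.inr i))

theorem ext_split {ι : Type} {m : ℕ} (e : ι → List Bool) (y : Fin m → List Bool) (z : List Bool) :
    ext (Sum.elim e y) z ∘ splitLast = Sum.elim e (app y z) := by
  funext s
  rcases s with i | i
  · simp [splitLast, ext]
  · refine Fin.lastCases ?_ (fun i => ?_) i
    · simp [splitLast, ext, app]
    · simp [splitLast, ext, app]

theorem elim_zero {ι : Type} (e : ι → List Bool) (y : Fin 0 → List Bool) :
    Sum.elim e y = e ∘ (Sum.elim id (fun i : Fin 0 => i.elim0)) := by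
  funext s
  rcases s with i | i
  · rfl
  · exact i.elim0

theorem NX.allT {ι : Type} [Finite ι] : ∀ {m : ℕ} {R : (ι ⊕ Fin m → List Bool) → Prop}, NX O R →
    ∀ j : ι, NX O fun e : ι → List Bool => ∀ y : Fin m → List Bool,
      (∀ i, (y i).length = (e j).length) → R (Sum.elim e y) := by
  intro m
  induction m with
  | zero =>
    intro R h j
    refine (h.reindex (Sum.elim id (fun i : Fin 0 => i.elim0))).congr fun e => ?_
    constructor
    · intro h1 y _
      rw [elim_zero]
      exact h1
    · intro h1
      have := h1 (fun i => i.elim0) (fun i => i.elim0)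
      rwa [elim_zero] at this
  | succ m ih =>
    intro R h j
    have h1 := ih ((h.reindex splitLast).all1 (Sum.inl j)) j
    refine h1.congr fun e => ?_
    constructor
    · intro h2 y hy
      have h3 := h2 (fun i => y i.castSucc) (fun i => hy _) (y (Fin.last m)) (by simpa using hy _)
      rw [ext_split] at h3
      have h4 : app (fun i => y i.castSucc) (y (Fin.last m)) = y := by
        funext i
        refine Fin.lastCases ?_ (fun i => ?_) i
        · simp [app]
        · simp [app]
      rwa [h4] at h3
    · intro h2 y hy z hz
      rw [ext_split]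
      refine h2 _ fun i => ?_
      refine Fin.lastCases ?_ (fun i => ?_) i
      · simpa [app] using hz
      · simpa [app] using hy i

theorem NX.exT {ι : Type} [Finite ι] : ∀ {m : ℕ} {R : (ι ⊕ Fin m → List Bool) → Prop}, NX O R →
    ∀ j : ι, NX O fun e : ι → List Bool => ∃ y : Fin m → List Bool,
      (∀ i, (y i).length = (e j).length) ∧ R (Sum.elim e y) := by
  intro m
  induction m with
  | zero =>
    intro R h j
    refine (h.reindex (Sum.elim id (fun i : Fin 0 => i.elim0))).congr fun e => ?_
    constructor
    · intro h1
      refine ⟨fun i => i.elim0, fun i => i.elim0, ?_⟩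
      rw [elim_zero]
      exact h1
    · rintro ⟨y, -, h1⟩
      rwa [elim_zero] at h1
  | succ m ih =>
    intro R h j
    have h1 := ih ((h.reindex splitLast).ex1 (Sum.inl j)) j
    refine h1.congr fun e => ?_
    constructor
    · rintro ⟨y, hy, z, hz, h2⟩
      rw [ext_split] at h2
      refine ⟨_, fun i => ?_, h2⟩
      refine Fin.lastCases ?_ (fun i => ?_) i
      · simpa [app] using hz
      · simpa [app] using hy i
    · rintro ⟨y, hy, h2⟩
      refine ⟨fun i => y i.castSucc, fun i => hy _, y (Fin.last m), by simpa using hy _, ?_⟩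
      rw [ext_split]
      have h4 : app (fun i => y i.castSucc) (y (Fin.last m)) = y := by
        funext i
        refine Fin.lastCases ?_ (fun i => ?_) i
        · simp [app]
        · simp [app]
      rwa [h4]

end Pool.Agent.LibNexp55
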