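import Pool.Agent.LibNexp55.EasyHard

/-!
Reachability, and some more relations.
-/

namespace Pool.Agent.LibNexp55

open Function Pool.Agent.LibNexp

variable {O : List Bool → Bool}

theorem NX.exLe {ι : Type} {R : (Option ι → List Bool) → Prop} (h : NX O R) (j : ι)
    (hb : ∀ e z, R (ext e z) → z.length ≤ (e j).length) :
    NX O fun e : ι → List Bool => ∃ z, R (ext e z) := by
  have h' := h
  obtain ⟨l, v, hv⟩ := h'
  have : Finite (Option ι) := Finite.of_equiv _ v.symm
  have : Finite ι := Finite.of_injective (some : ι → Option ι) (Option.some_injective _)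
  have := Fintype.ofFinite ι
  exact NX.exists h (g := fun n => n) PolyB.id fun e z hz => le_trans (hb e z hz) (len_le_tot e j)

theorem nx_le {ι : Type} [Finite ι] (i j : ι) :
    NX O fun e : ι → List Bool => (e i).length ≤ (e j).length := by
  refine (nx_of (nexp_le (O := O)) ![i, j]).congr fun e => ?_
  simp

theorem nx_pow {ι : Type} [Finite ι] (K : ℕ) (i j : ι) :
    NX O fun e : ι → List Bool => (e j).length = (e i).length ^ K := by
  refine (nx_of (nexp_pow (O := O) K) ![i, j]).congr fun e => ?_
  simp

theorem nx_lin {ι : Type} [Finite ι] (a b : ℕ) (i j : ι) :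
    NX O fun e : ι → List Bool => (e j).length = a * (e i).length + b := by
  refine (nx_of (nexp_len (O := O) 1 a 0 b) ![i, j]).congr fun e => ?_
  simp

/-- `|e j| = a |e i| ^ K + b`. -/
theorem nx_powlin {ι : Type} [Finite ι] (a K b : ℕ) (i j : ι) (ha : 1 ≤ a) :
    NX O fun e : ι → List Bool => (e j).length = a * (e i).length ^ K + b := by
  refine (NX.exLe (R := fun e : Option ι → List Bool => (e none).length = (e (some i)).length ^ K ∧
    (e (some j)).length = a * (e none).length + b) ((nx_pow _ _ _).and (nx_lin _ _ _ _)) j
      ?_).congr fun e => ?_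
  · rintro e z ⟨-, h⟩
    change (e j).length = a * z.length + b at h
    rw [h]
    have := Nat.mul_le_mul_right z.length ha
    omega
  · constructor
    · rintro ⟨z, h1, h2⟩
      change z.length = (e i).length ^ K at h1
      change (e j).length = a * z.length + b at h2
      rw [h2, h1]
    · intro h
      refine ⟨List.replicate ((e i).length ^ K) false, ?_, ?_⟩
      · show (List.replicate _ false).length = _
        simp
      · show (e j).length = a * (List.replicate _ false).length + b
        rw [List.length_replicate, h]

theorem nx_pad {ι : Type} [Finite ι] (i : ι) :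
    NX O fun e : ι → List Bool => ∃ j, e i = true :: List.replicate j false := by
  refine (nx_of (nexp_pad (O := O)) ![i]).congr fun e => ?_
  simp

theorem nx_cat {ι : Type} [Finite ι] (i j k : ι) :
    NX O fun e : ι → List Bool => e k = e i ++ e j := by
  refine (nx_of (nexp_cat (O := O)) ![i, j, k]).congr fun e => ?_
  simp

theorem nx_pair_mem {ι : Type} [Finite ι] {B : Lang} (hB : B ∈ NEXPLang O) (i j : ι) :
    NX O fun e : ι → List Bool => pair (e i) (e j) ∈ B := by
  refine (nx_of (nexp_pair_mem hB (0 : Fin 2) 1) ![i, j]).congr fun e => ?_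
  simp

/-- Appending one letter. -/
theorem nx_snoc {ι : Type} [Finite ι] (b : Bool) (i j : ι) :
    NX O fun e : ι → List Bool => e j = e i ++ [b] := by
  refine (NX.exLe (R := fun e : Option ι → List Bool => e none = [] ∧
    e (some j) = e (some i) ++ [b] ++ e none) ((nx_const _ _).and (nx_mid _ _ _ _)) j
      ?_).congr fun e => ?_
  · rintro e z ⟨h, -⟩
    change z = [] at h
    rw [h]
    simp
  · constructor
    · rintro ⟨z, h1, h2⟩
      change z = [] at h1
      change e j = e i ++ [b] ++ z at h2
      rw [h2, h1]
      simp
    · intro h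
      refine ⟨[], rfl, ?_⟩
      show e j = e i ++ [b] ++ []
      rw [h]
      simp

/-- Reachability through strings of polynomial length. -/
theorem NX.reach {ι : Type} [Fintype ι] {S : (ι → List Bool) → List Bool → List Bool → Prop}
    (hS : NX O fun e : Option (Option ι) → List Bool =>
      S (fun i => e (some (some i))) (e (some none)) (e none))
    {g : ℕ → ℕ} (hg : PolyB g) (hgm : Monotone g)
    (hb : ∀ e a b, S e a b → b.length ≤ g (tot e)) :
    NX O fun e : Option (Option ι) → List Bool =>
      Relation.ReflTransGen (S fun i => e (some (some i))) (e (some none)) (e none) := by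
  obtain ⟨k, ⟨u⟩⟩ := Finite.exists_equiv_fin ι
  set f : Option (Option ι) → Fin (k + 2) := fun o => o.elim (Fin.last (k + 1))
    fun o' => o'.elim (Fin.castSucc (Fin.last k)) fun i => Fin.castLE (Nat.le_add_right k 2) (u i)
    with hf
  have h1 : NEXP O fun e : Fin (k + 2) → List Bool =>
      S (LibBHN.low (Nat.le_add_right k 2) e ∘ u) (e (Fin.castSucc (Fin.last k)))
        (e (Fin.last (k + 1))) := by
    refine (nx_fin.1 (hS.reindex f)).congr fun e => ?_
    exact Iff.rfl
  have h2 := LibBHN.nexp_reach (O := O) (k := k) (S := fun e a b => S (e ∘ u) a b) h1 hg hgm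
    (fun e a b h => by
      have h3 := hb _ _ _ h
      have h4 : tot (e ∘ u) = size e := Equiv.sum_comp u fun i => (e i).length
      rwa [h4] at h3)
  set f' : Fin (k + 2) → Option (Option ι) := fun j =>
    if h : (j : ℕ) < k then some (some (u.symm ⟨j, h⟩)) else if (j : ℕ) = k then some none
      else none with hf'
  refine (nx_of h2 f').congr fun e => ?_
  have e1 : f' (Fin.last (k + 1)) = none := by simp [hf']
  have e2 : f' (Fin.castSucc (Fin.last k)) = some none := by simp [hf']
  have e3 : (LibBHN.low (Nat.le_add_right k 2) (fun j => e (f' j))) ∘ u =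
      fun i => e (some (some i)) := by
    funext i
    have : ((u i : Fin k) : ℕ) < k := (u i).2
    simp [LibBHN.low, hf', this]
  have e4 : (fun a b => S ((LibBHN.low (Nat.le_add_right k 2) (fun j => e (f' j))) ∘ u) a b) =
      S fun i => e (some (some i)) := by
    rw [e3]
  dsimp only
  rw [e1, e2, e4]

end Pool.Agent.LibNexp55
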